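import Pool.Agent.Lib.MP_8d3748_co.Defs

/-! Real-valued bounds on resistances, gluing of networks at the root. -/

open scoped ENNReal
open Finset

namespace Pool.Agent.Lib.MP_8d3748_co

namespace Net

variable {V W : Type} [Fintype V] [Fintype W]

theorem energy_nonneg (G : Net V) (f : Option V → ℝ) : 0 ≤ G.energy f := by
  unfold energy; positivity

theorem edges_nonneg (G : Net V) : 0 ≤ G.edges := by
  unfold edges; positivity

theorem energy_div (G : Net V) (f : Option V → ℝ) (c : ℝ) :
    G.energy (fun x ↦ f x / c) = G.energy f / c ^ 2 := by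
  unfold energy
  rw [div_right_comm]
  congr 1
  rw [Finset.sum_div]
  refine Finset.sum_congr rfl fun x _ ↦ ?_
  rw [Finset.sum_div]
  refine Finset.sum_congr rfl fun y _ ↦ by ring

/-- `R` is an upper bound for the resistance from `v` to the root -/
def UB (G : Net V) (v : V) (R : ℝ) : Prop :=
  ∀ f : Option V → ℝ, f none = 0 → f (some v) ^ 2 ≤ R * G.energy f

theorem res_none (G : Net V) : G.res none none = 0 := by
  unfold res
  have : IsEmpty {f : Option V → ℝ // f none = 0 ∧ f none = 1} :=
    ⟨fun f ↦ by have := f.2.1.symm.trans f.2.2; norm_num at this⟩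
  simp

theorem res_le {G : Net V} {v : V} {R : ℝ} (h : G.UB v R) :
    G.res none (some v) ≤ ENNReal.ofReal R := by
  unfold res
  rw [ENNReal.inv_le_iff_inv_le]
  refine le_iInf fun f ↦ ?_
  have h1 := h f.1 f.2.1
  rw [f.2.2] at h1
  have hE := G.energy_nonneg f.1
  have hR : 0 < R := by
    by_contra hn
    have := mul_nonpos_of_nonpos_of_nonneg (not_lt.1 hn) hE
    linarith
  rw [← ENNReal.ofReal_inv_of_pos hR]
  refine ENNReal.ofReal_le_ofReal ?_
  rw [inv_le_iff_one_le_mul₀' hR]
  linarith

theorem ub_of_res {G : Net V} {v : V} (h : G.res none (some v) ≠ ⊤) :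
    G.UB v (G.res none (some v)).toReal := by
  classical
  intro f hf
  have hE := G.energy_nonneg f
  by_cases hv : f (some v) = 0
  · rw [hv]
    have := mul_nonneg (ENNReal.toReal_nonneg (a := G.res none (some v))) hE
    simpa using this
  unfold res at h ⊢
  set c := ⨅ f : {f : Option V → ℝ // f none = 0 ∧ f (some v) = 1},
    ENNReal.ofReal (G.energy f.1) with hc
  have hc0 : c ≠ 0 := by
    intro h0; rw [h0] at h; simp at h
  have hle : c ≤ ENNReal.ofReal (G.energy f / f (some v) ^ 2) := by
    rw [← energy_div]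
    exact iInf_le (fun f : {f : Option V → ℝ // f none = 0 ∧ f (some v) = 1} ↦
      ENNReal.ofReal (G.energy f.1)) ⟨fun x ↦ f x / f (some v), by simp [hf], by simp [hv]⟩
  have hct : c ≠ ⊤ := ne_top_of_le_ne_top ENNReal.ofReal_ne_top hle
  have hpos : 0 < c.toReal := ENNReal.toReal_pos hc0 hct
  have h2 : c.toReal ≤ G.energy f / f (some v) ^ 2 :=
    ENNReal.toReal_le_of_le_ofReal (by positivity) hle
  have hv2 : 0 < f (some v) ^ 2 := by positivity
  rw [ENNReal.toReal_inv, inv_mul_eq_div, le_div_iff₀ hpos]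
  rw [le_div_iff₀ hv2] at h2
  linarith

/-- the resistances to the root sum to at most `X` -/
def Rep (G : Net V) (X : ℝ) : Prop :=
  ∃ R : V → ℝ, (∀ v, 0 ≤ R v) ∧ ∑ v, R v ≤ X ∧ ∀ v, G.UB v (R v)

theorem Rep.sum_le {G : Net V} {X : ℝ} (h : G.Rep X) :
    ∑ x, G.res none x ≤ ENNReal.ofReal X := by
  obtain ⟨R, h0, hX, hR⟩ := h
  rw [Fintype.sum_option, res_none, zero_add]
  refine (Finset.sum_le_sum fun v _ ↦ res_le (hR v)).trans ?_
  rw [← ENNReal.ofReal_sum_of_nonneg fun v _ ↦ h0 v]
  exact ENNReal.ofReal_le_ofReal hX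

theorem Rep.nonneg {G : Net V} {X : ℝ} (h : G.Rep X) : 0 ≤ X := by
  obtain ⟨R, h0, hX, -⟩ := h
  exact (Finset.sum_nonneg fun v _ ↦ h0 v).trans hX

theorem rep_of_sum_le {G : Net V} {X : ℝ} (hX : 0 ≤ X)
    (h : ∑ x, G.res none x ≤ ENNReal.ofReal X) : G.Rep X := by
  rw [Fintype.sum_option, res_none, zero_add] at h
  have hfin : ∀ v, G.res none (some v) ≠ ⊤ := fun v ↦
    ne_top_of_le_ne_top ENNReal.ofReal_ne_top
      ((Finset.single_le_sum (f := fun v ↦ G.res none (some v)) (fun _ _ ↦ by simp)
        (Finset.mem_univ v)).trans h)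
  refine ⟨fun v ↦ (G.res none (some v)).toReal, fun _ ↦ ENNReal.toReal_nonneg, ?_,
    fun v ↦ ub_of_res (hfin v)⟩
  rw [← ENNReal.toReal_sum fun v _ ↦ hfin v]
  exact ENNReal.toReal_le_of_le_ofReal hX h

open Classical in
/-- transport along an injective map -/
noncomputable def push (G : Net V) (j : Option V → Option W) (hj : Function.Injective j) :
    Net W where
  m x y := ∑ a, ∑ b, if j a = x ∧ j b = y then G.m a b else 0
  symm x y := by
    rw [Finset.sum_comm]
    refine Finset.sum_congr rfl fun a _ ↦ Finset.sum_congr rfl fun b _ ↦ ?_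
    rw [G.symm b a]
    simp only [and_comm]
  loop x := by
    refine Finset.sum_eq_zero fun a _ ↦ Finset.sum_eq_zero fun b _ ↦ ?_
    split_ifs with h
    · rw [hj (h.1.trans h.2.symm), G.loop]
    · rfl

theorem sum_push (G : Net V) (j : Option V → Option W) (hj : Function.Injective j)
    (F : Option W → Option W → ℝ) :
    ∑ x, ∑ y, ((G.push j hj).m x y : ℝ) * F x y = ∑ a, ∑ b, (G.m a b : ℝ) * F (j a) (j b) := by
  classical
  simp only [push, Nat.cast_sum, Finset.sum_mul]
  rw [Finset.sum_congr rfl fun x _ ↦ Finset.sum_comm, Finset.sum_comm]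
  refine Finset.sum_congr rfl fun a _ ↦ ?_
  rw [Finset.sum_congr rfl fun x _ ↦ Finset.sum_comm, Finset.sum_comm]
  refine Finset.sum_congr rfl fun b _ ↦ ?_
  rw [Finset.sum_eq_single (j a), Finset.sum_eq_single (j b)]
  · simp
  · intro y _ hy; simp [hy.symm]
  · simp
  · intro x _ hx
    exact Finset.sum_eq_zero fun y _ ↦ by simp [hx.symm]
  · simp

theorem edges_push (G : Net V) (j : Option V → Option W) (hj : Function.Injective j) :
    (G.push j hj).edges = G.edges := by
  have := G.sum_push j hj fun _ _ ↦ 1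
  simp only [mul_one] at this
  unfold edges; rw [this]

theorem energy_push (G : Net V) (j : Option V → Option W) (hj : Function.Injective j)
    (f : Option W → ℝ) : (G.push j hj).energy f = G.energy (fun a ↦ f (j a)) := by
  unfold energy; rw [sum_push]

/-- union of the edge sets -/
def add (G G' : Net V) : Net V where
  m x y := G.m x y + G'.m x y
  symm x y := by rw [G.symm, G'.symm]
  loop x := by rw [G.loop, G'.loop]

theorem edges_add (G G' : Net V) : (G.add G').edges = G.edges + G'.edges := by
  simp only [edges, add, Nat.cast_add, Finset.sum_add_distrib]; ring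

theorem energy_add (G G' : Net V) (f : Option V → ℝ) :
    (G.add G').energy f = G.energy f + G'.energy f := by
  simp only [energy, add, Nat.cast_add, add_mul, Finset.sum_add_distrib]; ring

open Classical in
/-- a network from a list of edges -/
noncomputable def ofEdges {ι : Type} [Fintype ι] (a b : ι → Option V) (h : ∀ i, a i ≠ b i) :
    Net V where
  m x y := ∑ i, ((if a i = x ∧ b i = y then 1 else 0) + if a i = y ∧ b i = x then 1 else 0)
  symm x y := Finset.sum_congr rfl fun i _ ↦ add_comm _ _
  loop x := Finset.sum_eq_zero fun i _ ↦ by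
    have : ¬ (a i = x ∧ b i = x) := fun hx ↦ h i (hx.1.trans hx.2.symm)
    simp [this]

theorem sum_ofEdges {ι : Type} [Fintype ι] (a b : ι → Option V) (h : ∀ i, a i ≠ b i)
    (F : Option V → Option V → ℝ) :
    ∑ x, ∑ y, ((ofEdges a b h).m x y : ℝ) * F x y = ∑ i, (F (a i) (b i) + F (b i) (a i)) := by
  classical
  simp only [ofEdges, Nat.cast_sum, Finset.sum_mul]
  rw [Finset.sum_congr rfl fun x _ ↦ Finset.sum_comm, Finset.sum_comm]
  refine Finset.sum_congr rfl fun i _ ↦ ?_
  simp only [Nat.cast_add, add_mul, Finset.sum_add_distrib]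
  congr 1
  · rw [Finset.sum_eq_single (a i), Finset.sum_eq_single (b i)]
    · simp
    · intro y _ hy; simp [hy.symm]
    · simp
    · intro x _ hx
      exact Finset.sum_eq_zero fun y _ ↦ by simp [hx.symm]
    · simp
  · rw [Finset.sum_eq_single (b i), Finset.sum_eq_single (a i)]
    · simp
    · intro y _ hy; simp [hy.symm]
    · simp
    · intro x _ hx
      exact Finset.sum_eq_zero fun y _ ↦ by simp [hx.symm]
    · simp

theorem edges_ofEdges {ι : Type} [Fintype ι] (a b : ι → Option V) (h : ∀ i, a i ≠ b i) :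
    (ofEdges a b h).edges = Fintype.card ι := by
  have := sum_ofEdges a b h fun _ _ ↦ 1
  simp only [mul_one] at this
  unfold edges; rw [this]; simp

theorem energy_ofEdges {ι : Type} [Fintype ι] (a b : ι → Option V) (h : ∀ i, a i ≠ b i)
    (f : Option V → ℝ) : (ofEdges a b h).energy f = ∑ i, (f (a i) - f (b i)) ^ 2 := by
  unfold energy
  rw [sum_ofEdges, Finset.sum_div]
  refine Finset.sum_congr rfl fun i _ ↦ by ring

end Net

open Net

/-- some network on `n` non-root vertices has at most `e` edges and total resistance at most `X` -/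
def Ach (n : ℕ) (e X : ℝ) : Prop := ∃ G : Net (Fin n), G.edges ≤ e ∧ G.Rep X

theorem Ach.mono {n : ℕ} {e X e' X' : ℝ} (h : Ach n e X) (he : e ≤ e') (hX : X ≤ X') :
    Ach n e' X' := by
  obtain ⟨G, h1, R, h0, h2, h3⟩ := h
  exact ⟨G, h1.trans he, R, h0, h2.trans hX, h3⟩

theorem ach_of_rep {V : Type} [Fintype V] {G : Net V} {X : ℝ} (h : G.Rep X) :
    Ach (Fintype.card V) G.edges X := by
  obtain ⟨R, h0, h2, h3⟩ := h
  let e := Fintype.equivFin V
  have hj : Function.Injective (Option.map e) := Option.map_injective e.injective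
  refine ⟨G.push _ hj, (edges_push _ _ _).le, fun i ↦ R (e.symm i), fun i ↦ h0 _, ?_, ?_⟩
  · rwa [Equiv.sum_comp e.symm R]
  · intro i f hf
    rw [energy_push]
    simpa using h3 (e.symm i) (fun a ↦ f (Option.map e a)) (by simpa using hf)

theorem Ach.add {n n' : ℕ} {e X e' X' : ℝ} (h : Ach n e X) (h' : Ach n' e' X') :
    Ach (n + n') (e + e') (X + X') := by
  obtain ⟨G, h1, R, h0, h2, h3⟩ := h
  obtain ⟨G', h1', R', h0', h2', h3'⟩ := h'
  have hl : Function.Injective (Option.map (Sum.inl : Fin n → Fin n ⊕ Fin n')) :=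
    Option.map_injective Sum.inl_injective
  have hr : Function.Injective (Option.map (Sum.inr : Fin n' → Fin n ⊕ Fin n')) :=
    Option.map_injective Sum.inr_injective
  have : ((G.push _ hl).add (G'.push _ hr)).Rep (X + X') := by
    refine ⟨Sum.elim R R', ?_, ?_, ?_⟩
    · rintro (v | v)
      exacts [h0 v, h0' v]
    · rw [Fintype.sum_sum_type]
      exact add_le_add h2 h2'
    · rintro (v | v) f hf
      · rw [energy_add, energy_push, energy_push]
        have := h3 v (fun a ↦ f (Option.map Sum.inl a)) (by simpa using hf)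
        have h4 := mul_nonneg (h0 v) (G'.energy_nonneg fun a ↦ f (Option.map Sum.inr a))
        simp only [Option.map_some, Sum.elim_inl] at this ⊢
        nlinarith
      · rw [energy_add, energy_push, energy_push]
        have := h3' v (fun a ↦ f (Option.map Sum.inr a)) (by simpa using hf)
        have h4 := mul_nonneg (h0' v) (G.energy_nonneg fun a ↦ f (Option.map Sum.inl a))
        simp only [Option.map_some, Sum.elim_inr] at this ⊢
        nlinarith
  have h5 := ach_of_rep this
  rw [edges_add, edges_push, edges_push] at h5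
  simp only [Fintype.card_sum, Fintype.card_fin] at h5
  exact h5.mono (add_le_add h1 h1') le_rfl

theorem ach_leaves (n : ℕ) : Ach n n n := by
  refine ⟨ofEdges (fun _ : Fin n ↦ none) (fun i ↦ some i) (by simp), ?_, fun _ ↦ 1,
    fun _ ↦ zero_le_one, by simp, fun v f hf ↦ ?_⟩
  · rw [edges_ofEdges]; simp
  · rw [energy_ofEdges, one_mul]
    refine le_trans ?_ (Finset.single_le_sum (f := fun i : Fin n ↦ (f none - f (some i)) ^ 2)
      (fun _ _ ↦ sq_nonneg _) (Finset.mem_univ v))
    rw [hf]; simp

theorem Ach.nsmul {n : ℕ} {e X : ℝ} (h : Ach n e X) (p : ℕ) : Ach (p * n) (p * e) (p * X) := by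
  induction p with
  | zero => simpa using ach_leaves 0
  | succ p ih =>
    have := ih.add h
    rw [Nat.succ_mul]
    push_cast
    convert this using 1 <;> ring

theorem Net.Optimal.rep {n : ℕ} {α e X : ℝ} {G : Net (Fin n)} (h : G.Optimal α) (hn : 0 < n)
    (ha : Ach n e X) (he : e ≤ α * n / 2) : G.Rep X := by
  obtain ⟨G', h1, h2⟩ := ha
  refine rep_of_sum_le h2.nonneg (le_trans ?_ h2.sum_le)
  have := h.2 G' (h1.trans he)
  unfold avg at this
  have hn0 : (n : ℝ≥0∞) ≠ 0 := by exact_mod_cast hn.ne'
  rw [div_eq_mul_inv, div_eq_mul_inv] at this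
  exact (ENNReal.mul_le_mul_iff_left (by simp) (by simpa using hn0)).1 this

end Pool.Agent.Lib.MP_8d3748_co
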