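import Pool.Agent.Lib.MP_8d3748_co.Msg

/-! Dual certificates: a convex potential on messages gives a linear lower bound. -/

open Finset

namespace Pool.Agent.Lib.MP_8d3748_co

/-- a convex piecewise linear potential -/
noncomputable def phi (L : List (ℚ × ℚ)) (t : ℝ) : ℝ :=
  L.foldr (fun p acc ↦ max ((p.1 : ℝ) - p.2 * t) acc) 0

theorem phi_cons (p : ℚ × ℚ) (L : List (ℚ × ℚ)) (t : ℝ) :
    phi (p :: L) t = max ((p.1 : ℝ) - p.2 * t) (phi L t) := rfl

theorem phi_nonneg (L : List (ℚ × ℚ)) (t : ℝ) : 0 ≤ phi L t := by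
  induction L with
  | nil => exact le_rfl
  | cons p L ih => exact ih.trans (le_max_right _ _)

theorem phi_piece (L : List (ℚ × ℚ)) (t : ℝ) :
    phi L t = 0 ∨ ∃ k < L.length, phi L t = (L.getD k 0).1 - (L.getD k 0).2 * t := by
  induction L with
  | nil => exact Or.inl rfl
  | cons p L ih =>
    rw [phi_cons]
    rcases le_total ((p.1 : ℝ) - p.2 * t) (phi L t) with h | h
    · rw [max_eq_right h]
      rcases ih with h | ⟨k, hk, h⟩
      · exact Or.inl h
      · exact Or.inr ⟨k + 1, by simpa using hk, by simpa using h⟩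
    · rw [max_eq_left h]
      exact Or.inr ⟨0, by simp, by simp⟩

/-- a lower bound for `phi L t + ν t` on the unit interval -/
def conj : List (ℚ × ℚ) → ℚ → ℚ
  | [], ν => min 0 ν
  | [p], ν => if p.2 ≤ ν then p.1 else min 0 ν
  | p :: q :: r, ν => if p.2 ≤ ν then p.1 else
      if q.2 ≤ ν then ((ν - q.2) * p.1 + (p.2 - ν) * q.1) / (p.2 - q.2) else conj (q :: r) ν

theorem conj_le {t : ℝ} (h0 : 0 ≤ t) (h1 : t ≤ 1) (ν : ℚ) :
    ∀ L : List (ℚ × ℚ), (conj L ν : ℝ) ≤ phi L t + ν * t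
  | [] => by
    simp only [conj, phi, List.foldr, Rat.cast_min, Rat.cast_zero, zero_add]
    rcases le_total 0 (ν : ℝ) with h | h
    · exact (min_le_left _ _).trans (mul_nonneg h h0)
    · exact (min_le_right _ _).trans (by nlinarith)
  | [p] => by
    have h2 := conj_le h0 h1 ν []
    have h3 : (p.1 : ℝ) - p.2 * t ≤ phi [p] t := le_max_left _ _
    have h4 : phi [] t ≤ phi [p] t := le_max_right _ _
    simp only [conj] at h2 ⊢
    split_ifs with h
    · have : (p.2 : ℝ) ≤ ν := by exact_mod_cast h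
      nlinarith
    · linarith
  | p :: q :: r => by
    have h2 := conj_le h0 h1 ν (q :: r)
    have h3 : (p.1 : ℝ) - p.2 * t ≤ phi (p :: q :: r) t := le_max_left _ _
    have h4 : phi (q :: r) t ≤ phi (p :: q :: r) t := le_max_right _ _
    have h5 : (q.1 : ℝ) - q.2 * t ≤ phi (q :: r) t := le_max_left _ _
    simp only [conj]
    split_ifs with h h'
    · have : (p.2 : ℝ) ≤ ν := by exact_mod_cast h
      nlinarith
    · have a1 : (ν : ℝ) < p.2 := by exact_mod_cast not_le.1 h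
      have a2 : (q.2 : ℝ) ≤ ν := by exact_mod_cast h'
      push_cast
      rw [div_le_iff₀ (by linarith)]
      nlinarith [mul_le_mul_of_nonneg_left h3 (sub_nonneg.2 a2),
        mul_le_mul_of_nonneg_left (h5.trans h4) (sub_nonneg.2 a1.le)]
    · linarith

def aval (L : List (ℚ × ℚ)) (s : ℚ) (p : ℚ × ℚ) (y Z : ℚ) : ℚ :=
  s - Z + 2 * p.2 * y - p.1 + conj L (Z - p.2 * y ^ 2)

theorem tangent {x : ℝ} (hx : 0 < x) (y : ℝ) : 2 * y - y ^ 2 * x ≤ 1 / x := by
  rw [le_div_iff₀ hx]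
  nlinarith [sq_nonneg (1 - y * x)]

theorem dart_bound {L : List (ℚ × ℚ)} {s : ℚ} {p : ℚ × ℚ} (y Z : ℚ) {S t : ℝ} (hS : 0 < S)
    (h0 : 0 ≤ t) (h1 : t ≤ 1) (hp : 0 ≤ p.2)
    (h : phi L (1 / (S + t)) = p.1 - p.2 * (1 / (S + t))) :
    (aval L s p y Z : ℝ) - p.2 * y ^ 2 * S + Z * (1 - t) ≤
      s + phi L t - phi L (1 / (S + t)) := by
  have h2 := conj_le h0 h1 (Z - p.2 * y ^ 2) L
  have h3 := mul_le_mul_of_nonneg_left (tangent (show 0 < S + t by linarith) y)
    (show (0 : ℝ) ≤ p.2 by exact_mod_cast hp)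
  rw [h, aval]
  push_cast at h2 ⊢
  nlinarith

/-- a certificate -/
structure Cert where
  s : ℚ
  m : ℚ
  ml : ℚ
  L : List (ℚ × ℚ)
  tab : List (ℕ × ℕ × List ℕ)
  cells : List (ℕ × ℕ × ℕ × List ℕ)
  Zl : ℚ

namespace Cert

variable (C : Cert)

def P (k : ℕ) : ℚ × ℚ := C.L.getD k 0

def sc (n : ℕ) : ℚ := (n : ℚ) / 1000000

def boundA (ks : List ℕ) (τ : ℚ) (y : ℕ → ℚ) : ℚ :=
  2 * τ + (ks.map fun k ↦ aval C.L C.s (C.P k) (y k)
    (τ ^ 2 + (ks.map fun j ↦ (C.P j).2 * y j ^ 2).sum)).sum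

def chkA (ks : List ℕ) : Bool :=
  let D := (C.tab.lookup (ks.map fun k ↦ 5 ^ k).sum).getD (0, [])
  !decide (ks.Pairwise (· ≤ ·)) || decide ((if ks.length = 1 then C.ml else C.m) ≤
    C.boundA ks (sc D.1) fun k ↦ sc (D.2.getD k 0))

def allLists (n : ℕ) : ℕ → List (List ℕ)
  | 0 => [[]]
  | d + 1 => (allLists n d).flatMap fun l ↦ (List.range n).map fun k ↦ k :: l

theorem mem_allLists (n : ℕ) : ∀ l : List ℕ, (∀ k ∈ l, k < n) → l ∈ allLists n l.length
  | [], _ => by simp [allLists]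
  | k :: l, h => by
    simp only [List.length_cons, allLists, List.mem_flatMap, List.mem_map, List.mem_range]
    exact ⟨l, mem_allLists n l fun j hj ↦ h j (List.mem_cons_of_mem _ hj), k,
      h k List.mem_cons_self, rfl⟩

def okAt (D τ Z : ℚ) (y : ℕ → ℚ) (S : ℚ) : Bool :=
  (List.range C.L.length).all fun k ↦
    decide (0 ≤ aval C.L C.s (C.P k) (y k) Z - (C.P k).2 * y k ^ 2 * S ∧
      C.m ≤ 2 * τ + (Z - τ ^ 2) * S + D * (aval C.L C.s (C.P k) (y k) Z - (C.P k).2 * y k ^ 2 * S))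

def chkB : ℚ → List (ℕ × ℕ × ℕ × List ℕ) → Bool
  | lo, [] => decide (0 ≤ C.Zl) && C.okAt 0 0 C.Zl (fun _ ↦ 0) lo
  | lo, c :: cs =>
    C.okAt (max 5 lo) (sc c.2.1) (sc c.2.2.1) (fun k ↦ sc (c.2.2.2.getD k 0)) lo &&
    C.okAt (max 5 lo) (sc c.2.1) (sc c.2.2.1) (fun k ↦ sc (c.2.2.2.getD k 0)) ((c.1 : ℚ) / 100) &&
    chkB ((c.1 : ℚ) / 100) cs

def valid : Bool :=
  decide (0 < C.L.length ∧ C.P (C.L.length - 1) = 0) &&
  ((List.range C.L.length).all fun k ↦ decide (0 ≤ (C.P k).2 ∧ (C.P k).1 ≤ C.s)) &&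
  (allLists C.L.length 1).all C.chkA && (allLists C.L.length 2).all C.chkA &&
  (allLists C.L.length 3).all C.chkA && (allLists C.L.length 4).all C.chkA &&
  C.chkB 0 C.cells

section star

variable {ι : Type} [Fintype ι] {t : ι → ℝ} {S : ℝ} {k : ι → ℕ}

theorem star_aux (hS : 0 < S) (hSt : S = ∑ i, (1 - t i)) (h0 : ∀ i, 0 ≤ t i) (h1 : ∀ i, t i ≤ 1)
    (hp : ∀ i, 0 ≤ (C.P (k i)).2)
    (hk : ∀ i, phi C.L (1 / (S + t i)) = (C.P (k i)).1 - (C.P (k i)).2 * (1 / (S + t i)))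
    (τ Z : ℚ) (y : ℕ → ℚ) :
    2 * τ + (Z - τ ^ 2) * S + ∑ i, ((aval C.L C.s (C.P (k i)) (y (k i)) Z : ℝ) -
      (C.P (k i)).2 * y (k i) ^ 2 * S) ≤
      1 / S + ∑ i, (C.s + phi C.L (t i) - phi C.L (1 / (S + t i))) := by
  have h2 := Finset.sum_le_sum fun i (_ : i ∈ univ) ↦
    dart_bound (s := C.s) (y (k i)) Z hS (h0 i) (h1 i) (hp i) (hk i)
  rw [Finset.sum_add_distrib, ← Finset.mul_sum, ← hSt] at h2
  have h3 := tangent hS τ
  linarith

theorem star_cell (hS : 0 < S) (hSt : S = ∑ i, (1 - t i)) (h0 : ∀ i, 0 ≤ t i) (h1 : ∀ i, t i ≤ 1)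
    (hp : ∀ i, 0 ≤ (C.P (k i)).2)
    (hk : ∀ i, phi C.L (1 / (S + t i)) = (C.P (k i)).1 - (C.P (k i)).2 * (1 / (S + t i)))
    {τ Z D : ℚ} {y : ℕ → ℚ} (hD : (D : ℝ) ≤ Fintype.card ι) (hne : Nonempty ι)
    (h : ∀ i, 0 ≤ (aval C.L C.s (C.P (k i)) (y (k i)) Z : ℝ) - (C.P (k i)).2 * y (k i) ^ 2 * S ∧
      (C.m : ℝ) ≤ 2 * τ + (Z - τ ^ 2) * S + D * ((aval C.L C.s (C.P (k i)) (y (k i)) Z : ℝ) -
        (C.P (k i)).2 * y (k i) ^ 2 * S)) :
    (C.m : ℝ) ≤ 1 / S + ∑ i, (C.s + phi C.L (t i) - phi C.L (1 / (S + t i))) := by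
  refine le_trans ?_ (C.star_aux hS hSt h0 h1 hp hk τ Z y)
  obtain ⟨i, -, hi⟩ := Finset.exists_min_image univ (fun i ↦
    (aval C.L C.s (C.P (k i)) (y (k i)) Z : ℝ) - (C.P (k i)).2 * y (k i) ^ 2 * S)
    Finset.univ_nonempty
  have h2 := Finset.card_nsmul_le_sum univ _ _ hi
  rw [Finset.card_univ, nsmul_eq_mul] at h2
  have h3 := mul_le_mul_of_nonneg_right hD (h i).1
  linarith [(h i).2]

theorem okAt_spec {D τ Z S' : ℚ} {y : ℕ → ℚ} (h : C.okAt D τ Z y S' = true) {j : ℕ}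
    (hj : j < C.L.length) :
    0 ≤ (aval C.L C.s (C.P j) (y j) Z : ℝ) - (C.P j).2 * y j ^ 2 * S' ∧
      (C.m : ℝ) ≤ 2 * τ + (Z - τ ^ 2) * S' + D * ((aval C.L C.s (C.P j) (y j) Z : ℝ) -
        (C.P j).2 * y j ^ 2 * S') := by
  have := of_decide_eq_true (List.all_eq_true.1 h j (List.mem_range.2 hj))
  exact ⟨by exact_mod_cast this.1, by exact_mod_cast this.2⟩

theorem affine {A B lo hi x : ℝ} (h1 : 0 ≤ A + B * lo) (h2 : 0 ≤ A + B * hi) (hl : lo ≤ x)
    (hh : x ≤ hi) : 0 ≤ A + B * x := by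
  rcases le_total 0 B with h | h <;> nlinarith

theorem star_B (hS : 0 < S) (hSt : S = ∑ i, (1 - t i)) (h0 : ∀ i, 0 ≤ t i) (h1 : ∀ i, t i ≤ 1)
    (hp : ∀ i, 0 ≤ (C.P (k i)).2) (hkl : ∀ i, k i < C.L.length)
    (hk : ∀ i, phi C.L (1 / (S + t i)) = (C.P (k i)).1 - (C.P (k i)).2 * (1 / (S + t i)))
    (h5 : 5 ≤ Fintype.card ι) : ∀ (cs : List (ℕ × ℕ × ℕ × List ℕ)) (lo : ℚ), (lo : ℝ) ≤ S →
      C.chkB lo cs = true →
      (C.m : ℝ) ≤ 1 / S + ∑ i, (C.s + phi C.L (t i) - phi C.L (1 / (S + t i))) := by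
  have hne : Nonempty ι := Fintype.card_pos_iff.1 (by omega)
  have hSd : S ≤ Fintype.card ι := by
    rw [hSt]
    have := Finset.sum_le_card_nsmul univ (fun i ↦ 1 - t i) 1 fun i _ ↦ by linarith [h0 i]
    simpa using this
  intro cs
  induction cs with
  | nil =>
    intro lo hlo h
    simp only [chkB, Bool.and_eq_true, decide_eq_true_eq] at h
    have hZ : (0 : ℝ) ≤ C.Zl := by exact_mod_cast h.1
    refine C.star_cell hS hSt h0 h1 hp hk (τ := 0) (Z := C.Zl) (D := 0) (y := fun _ ↦ 0)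
      (by simp) hne fun i ↦ ?_
    have := C.okAt_spec h.2 (hkl i)
    simp only [Rat.cast_zero, ne_eq, OfNat.ofNat_ne_zero, not_false_eq_true, zero_pow, mul_zero,
      zero_mul, sub_zero, zero_add, add_zero] at this ⊢
    exact ⟨this.1, by nlinarith [this.2]⟩
  | cons c cs ih =>
    intro lo hlo h
    simp only [chkB, Bool.and_eq_true] at h
    rcases le_total ((((c.1 : ℚ) / 100 : ℚ)) : ℝ) S with hc | hc
    · exact ih _ hc h.2
    refine C.star_cell hS hSt h0 h1 hp hk (τ := sc c.2.1) (Z := sc c.2.2.1) (D := max 5 lo)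
      (y := fun k ↦ sc (c.2.2.2.getD k 0)) ?_ hne fun i ↦ ?_
    · push_cast
      exact max_le (by exact_mod_cast h5) (hlo.trans hSd)
    have a1 := C.okAt_spec h.1.1 (hkl i)
    have a2 := C.okAt_spec h.1.2 (hkl i)
    constructor
    · have := affine (A := (aval C.L C.s (C.P (k i)) (sc (c.2.2.2.getD (k i) 0)) (sc c.2.2.1) : ℝ))
        (B := -((C.P (k i)).2 * (sc (c.2.2.2.getD (k i) 0) : ℝ) ^ 2)) (by linarith [a1.1])
        (by linarith [a2.1]) hlo hc
      linarith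
    · have := affine (A := 2 * (sc c.2.1 : ℝ) - C.m + ((max 5 lo : ℚ) : ℝ) *
          (aval C.L C.s (C.P (k i)) (sc (c.2.2.2.getD (k i) 0)) (sc c.2.2.1) : ℝ))
        (B := (sc c.2.2.1 : ℝ) - (sc c.2.1 : ℝ) ^ 2 - ((max 5 lo : ℚ) : ℝ) *
          ((C.P (k i)).2 * (sc (c.2.2.2.getD (k i) 0) : ℝ) ^ 2)) (by linarith [a1.2])
        (by linarith [a2.2]) hlo hc
      linarith

theorem star_A (hS : 0 < S) (hSt : S = ∑ i, (1 - t i)) (h0 : ∀ i, 0 ≤ t i) (h1 : ∀ i, t i ≤ 1)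
    (hp : ∀ i, 0 ≤ (C.P (k i)).2) (hkl : ∀ i, k i < C.L.length)
    (hk : ∀ i, phi C.L (1 / (S + t i)) = (C.P (k i)).1 - (C.P (k i)).2 * (1 / (S + t i)))
    (h : (allLists C.L.length (Fintype.card ι)).all C.chkA = true) :
    ((if Fintype.card ι = 1 then C.ml else C.m : ℚ) : ℝ) ≤
      1 / S + ∑ i, (C.s + phi C.L (t i) - phi C.L (1 / (S + t i))) := by
  set ks := ((univ : Finset ι).toList.map k).insertionSort (· ≤ ·) with hks
  have hperm : ks.Perm ((univ : Finset ι).toList.map k) := List.perm_insertionSort _ _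
  have hsort : ks.Pairwise (· ≤ ·) := List.pairwise_insertionSort _ _
  have hlen : ks.length = Fintype.card ι := by simp [hperm.length_eq]
  have hsum : ∀ F : ℕ → ℚ, (ks.map F).sum = ∑ i, F (k i) := fun F ↦ by
    rw [(hperm.map F).sum_eq, List.map_map, Finset.sum_map_toList]; rfl
  have hmem := mem_allLists C.L.length ks (by
    intro j hj
    obtain ⟨i, -, rfl⟩ := List.mem_map.1 (hperm.mem_iff.1 hj)
    exact hkl i)
  rw [hlen] at hmem
  have h2' := List.all_eq_true.1 h ks hmem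
  rw [chkA, decide_eq_true hsort, Bool.not_true, Bool.false_or] at h2'
  have h2 := of_decide_eq_true h2'
  rw [hlen, boundA, hsum, hsum] at h2
  set τ := sc ((C.tab.lookup (ks.map fun k ↦ 5 ^ k).sum).getD (0, [])).1
  set y : ℕ → ℚ := fun j ↦
    sc (((C.tab.lookup (ks.map fun k ↦ 5 ^ k).sum).getD (0, [])).2.getD j 0) with hy
  refine le_trans ?_ (C.star_aux hS hSt h0 h1 hp hk τ
    (τ ^ 2 + ∑ i, (C.P (k i)).2 * y (k i) ^ 2) y)
  have h3 := (Rat.cast_le (K := ℝ)).2 h2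
  refine h3.trans (le_of_eq ?_)
  push_cast
  rw [Finset.sum_sub_distrib, ← Finset.sum_mul]
  ring

end star

theorem star (h : C.valid = true) {ι : Type} [Fintype ι] {t : ι → ℝ} {S : ℝ} (hS : 0 < S)
    (hSt : S = ∑ i, (1 - t i)) (h0 : ∀ i, 0 ≤ t i) (h1 : ∀ i, t i ≤ 1) :
    ((if Fintype.card ι = 1 then C.ml else C.m : ℚ) : ℝ) ≤
      1 / S + ∑ i, (C.s + phi C.L (t i) - phi C.L (1 / (S + t i))) := by
  simp only [valid, Bool.and_eq_true, decide_eq_true_eq, List.all_eq_true, List.mem_range] at h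
  obtain ⟨⟨⟨⟨⟨⟨⟨hl, hz⟩, hb⟩, a1⟩, a2⟩, a3⟩, a4⟩, a5⟩ := h
  have hex : ∀ i, ∃ k < C.L.length,
      phi C.L (1 / (S + t i)) = (C.P k).1 - (C.P k).2 * (1 / (S + t i)) := by
    intro i
    rcases phi_piece C.L (1 / (S + t i)) with h | h
    · exact ⟨C.L.length - 1, by omega, by rw [h, hz]; simp⟩
    · exact h
  choose k hkl hk using hex
  have hp : ∀ i, 0 ≤ (C.P (k i)).2 := fun i ↦ (hb _ (hkl i)).1
  rcases Nat.lt_or_ge (Fintype.card ι) 5 with h5 | h5
  · refine C.star_A hS hSt h0 h1 hp hkl hk ?_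
    have hc : Fintype.card ι ≠ 0 := by
      intro h
      have := Fintype.card_eq_zero_iff.1 h
      simp [hSt] at hS
    rw [List.all_eq_true]
    interval_cases Fintype.card ι
    exacts [absurd rfl hc, a1, a2, a3, a4]
  · rw [if_neg (by omega)]
    exact C.star_B hS hSt h0 h1 hp hkl hk h5 C.cells 0 (by simpa using hS.le) a5

theorem phi_zero_le (h : C.valid = true) : phi C.L 0 ≤ C.s := by
  simp only [valid, Bool.and_eq_true, decide_eq_true_eq, List.all_eq_true, List.mem_range] at h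
  obtain ⟨⟨⟨⟨⟨⟨⟨hl, hz⟩, hb⟩, -⟩, -⟩, -⟩, -⟩, -⟩ := h
  rcases phi_piece C.L 0 with h | ⟨k, hk, h⟩
  · have := (hb (C.L.length - 1) (by omega)).2
    rw [hz] at this
    rw [h]
    exact_mod_cast this
  · rw [h, mul_zero, sub_zero]
    exact_mod_cast (hb k hk).2

end Cert

namespace Net

variable {V : Type} [Fintype V]

/-- the number of non-root leaves -/
def nl (G : Net V) : ℕ := (Finset.univ.filter fun v : V ↦ ∑ y, G.m (some v) y = 1).card

theorem two_edges (G : Net V) : 2 * G.edges =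
    2 * ∑ v, (G.m (some v) none : ℝ) + ∑ v, ∑ w, (G.m (some v) (some w) : ℝ) := by
  unfold edges
  simp only [Fintype.sum_option, G.loop, Finset.sum_add_distrib, G.symm none]
  push_cast
  ring

theorem Rep.lower {G : Net V} {X : ℝ} (hX : G.Rep X) {C : Cert} (h : C.valid = true) :
    C.m * (Fintype.card V : ℝ) - (C.m - C.ml) * G.nl ≤ X + C.s * (2 * G.edges) := by
  classical
  obtain ⟨R, h0, h1, h2⟩ := hX
  set T : ℕ → ℝ := fun L ↦ ∑ v, ∑ w, (G.m (some v) (some w) : ℝ) * phi C.L (G.msg L (some w) v)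
    with hT
  have hT0 : ∀ L, 0 ≤ T L := fun L ↦ Finset.sum_nonneg fun v _ ↦ Finset.sum_nonneg fun w _ ↦
    mul_nonneg (Nat.cast_nonneg _) (phi_nonneg _ _)
  have step : ∀ L, C.m * (Fintype.card V : ℝ) - (C.m - C.ml) * G.nl - X - C.s * (2 * G.edges) ≤
      T L - T (L + 1) := by
    intro L
    have hv : ∀ v, (C.m : ℝ) - (C.m - C.ml) * (if ∑ y, G.m (some v) y = 1 then 1 else 0) ≤
        R v + 2 * C.s * G.m (some v) none + ∑ w, (C.s * (G.m (some v) (some w) : ℝ) +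
          G.m (some v) (some w) * phi C.L (G.msg L (some w) v) -
          G.m (some v) (some w) * phi C.L (G.msg (L + 1) (some v) w)) := by
      intro v
      have h3 := (h2 v).one_le (h0 v) L
      have hS : 0 < G.cond L v := by
        by_contra hn
        have := mul_nonpos_of_nonneg_of_nonpos (h0 v) (not_lt.1 hn)
        linarith
      have h4 : 1 / G.cond L v ≤ R v := by rwa [div_le_iff₀ hS]
      have h5 := C.star h (ι := Σ z, Fin (G.m (some v) z)) (t := fun i ↦ G.msg L i.1 v) hS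
        (by simp only [Fintype.sum_sigma, cond, Finset.sum_const, Finset.card_univ,
          Fintype.card_fin, nsmul_eq_mul]) (fun i ↦ (G.msg_mem L _ _).1)
        (fun i ↦ (G.msg_mem L _ _).2)
      simp only [Fintype.card_sigma, Fintype.card_fin, Fintype.sum_sigma, Finset.sum_const,
        Finset.card_univ, nsmul_eq_mul] at h5
      rw [Fintype.sum_option (fun z ↦ (G.m (some v) z : ℝ) * _), msg_none] at h5
      have h6 : (G.m (some v) none : ℝ) * (C.s + phi C.L 0 - phi C.L (1 / (G.cond L v + 0))) ≤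
          2 * C.s * G.m (some v) none := by
        have := C.phi_zero_le h
        have := phi_nonneg C.L (1 / (G.cond L v + 0))
        have : (0 : ℝ) ≤ G.m (some v) none := Nat.cast_nonneg _
        nlinarith
      have h7 : ∑ w, (G.m (some v) (some w) : ℝ) * (C.s + phi C.L (G.msg L (some w) v) -
          phi C.L (1 / (G.cond L v + G.msg L (some w) v))) =
          ∑ w, (C.s * (G.m (some v) (some w) : ℝ) +
          G.m (some v) (some w) * phi C.L (G.msg L (some w) v) -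
          G.m (some v) (some w) * phi C.L (G.msg (L + 1) (some v) w)) := by
        refine Finset.sum_congr rfl fun w _ ↦ ?_
        rw [msg_succ]
        split_ifs with hm
        · simp [hm]
        · ring
      rw [h7] at h5
      split_ifs at h5 ⊢ <;> linarith
    have hs := Finset.sum_le_sum fun v (_ : v ∈ univ) ↦ hv v
    have e1 : ∑ v, ∑ w, (G.m (some v) (some w) : ℝ) * phi C.L (G.msg (L + 1) (some v) w) =
        T (L + 1) := by
      rw [Finset.sum_comm]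
      exact Finset.sum_congr rfl fun v _ ↦ Finset.sum_congr rfl fun w _ ↦ by rw [G.symm]
    simp only [Finset.sum_sub_distrib, Finset.sum_add_distrib, ← Finset.mul_sum, e1,
      Finset.sum_const, Finset.card_univ, nsmul_eq_mul, Finset.sum_boole] at hs
    rw [two_edges]
    simp only [hT, nl] at hs ⊢
    linarith
  by_contra hn
  push Not at hn
  set D := C.m * (Fintype.card V : ℝ) - (C.m - C.ml) * G.nl - X - C.s * (2 * G.edges) with hD
  have hD0 : 0 < D := by rw [hD]; linarith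
  have hK : ∀ K : ℕ, K * D ≤ T 0 - T K := by
    intro K
    induction K with
    | zero => simp
    | succ K ih => push_cast; linarith [step K]
  obtain ⟨K, hK'⟩ := exists_nat_gt (T 0 / D)
  rw [div_lt_iff₀ hD0] at hK'
  linarith [hK K, hT0 K]

end Net

end Pool.Agent.Lib.MP_8d3748_co
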