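import Pool.Agent.Lib.MP_8d3748_co.Tree
import Pool.Agent.Lib.MP_8d3748_co.Basic

/-! Covering graphs of large girth with sparse root edges. -/

open Finset

namespace Pool.Agent.Lib.MP_8d3748_co

namespace Base

variable {E : Type} [Fintype E] [DecidableEq E] {n : ℕ} (B : Base (Fin (n + 1)) E) (e0 : E)
  (M : ℕ) [NeZero M]

/-- the action twisted by a cyclic shift along `e0` -/
def tw {Γ : Type} (σ : E → Equiv.Perm Γ) (e : E) : Equiv.Perm (Γ × ZMod M) :=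
  Equiv.prodCongr (σ e) (Equiv.addRight (if e = e0 then 1 else 0))

noncomputable def en {Γ : Type} [Fintype Γ] (σ : E → Equiv.Perm Γ)
    (f : Fin (n + 1) × (Γ × ZMod M) → ℝ) : ℝ :=
  ∑ p : E × (Γ × ZMod M), (f (B.a p.1, p.2) - f (B.b p.1, tw e0 M σ p.1 p.2)) ^ 2 +
    ∑ γ, f (0, γ, 0) ^ 2

def Good (v : Fin (n + 1)) (i : ZMod M) : Prop :=
  ∃ C : ℝ, 0 ≤ C ∧ ∀ (Γ : Type) [Fintype Γ] (σ : E → Equiv.Perm Γ)
    (f : Fin (n + 1) × (Γ × ZMod M) → ℝ), ∑ γ, f (v, γ, i) ^ 2 ≤ C * B.en e0 M σ f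

theorem good_zero : B.Good e0 M 0 0 := by
  refine ⟨1, zero_le_one, fun Γ _ σ f ↦ ?_⟩
  rw [one_mul, en]
  exact le_add_of_nonneg_left (Finset.sum_nonneg fun _ _ ↦ sq_nonneg _)

theorem edge_le {Γ : Type} [Fintype Γ] (σ : E → Equiv.Perm Γ)
    (f : Fin (n + 1) × (Γ × ZMod M) → ℝ) (e : E) (i : ZMod M) :
    ∑ γ, (f (B.a e, γ, i) - f (B.b e, σ e γ, i + if e = e0 then 1 else 0)) ^ 2 ≤
      B.en e0 M σ f := by
  refine le_trans ?_ (le_add_of_nonneg_right (Finset.sum_nonneg fun _ _ ↦ sq_nonneg _))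
  rw [Fintype.sum_prod_type]
  refine le_trans ?_ (Finset.single_le_sum (f := fun e ↦ ∑ p : Γ × ZMod M,
    (f (B.a e, p) - f (B.b e, tw e0 M σ e p)) ^ 2)
    (fun _ _ ↦ Finset.sum_nonneg fun _ _ ↦ sq_nonneg _) (Finset.mem_univ e))
  rw [Fintype.sum_prod_type]
  refine Finset.sum_le_sum fun γ _ ↦ ?_
  exact Finset.single_le_sum (f := fun i ↦
    (f (B.a e, γ, i) - f (B.b e, tw e0 M σ e (γ, i))) ^ 2)
    (fun _ _ ↦ sq_nonneg _) (Finset.mem_univ i)

theorem good_iff (e : E) (i : ZMod M) :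
    B.Good e0 M (B.a e) i ↔ B.Good e0 M (B.b e) (i + if e = e0 then 1 else 0) := by
  constructor
  · rintro ⟨C, h0, h⟩
    refine ⟨2 * C + 2, by positivity, fun Γ _ σ f ↦ ?_⟩
    have h1 := h Γ σ f
    have h2 := B.edge_le e0 M σ f e i
    rw [← Equiv.sum_comp (σ e)]
    have h3 : ∑ γ, f (B.b e, σ e γ, i + if e = e0 then 1 else 0) ^ 2 ≤
        ∑ γ, (2 * f (B.a e, γ, i) ^ 2 +
          2 * (f (B.a e, γ, i) - f (B.b e, σ e γ, i + if e = e0 then 1 else 0)) ^ 2) :=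
      Finset.sum_le_sum fun γ _ ↦ by
        nlinarith [sq_nonneg (2 * f (B.a e, γ, i) -
          f (B.b e, σ e γ, i + if e = e0 then 1 else 0))]
    rw [Finset.sum_add_distrib, ← Finset.mul_sum, ← Finset.mul_sum] at h3
    linarith
  · rintro ⟨C, h0, h⟩
    refine ⟨2 * C + 2, by positivity, fun Γ _ σ f ↦ ?_⟩
    have h1 := h Γ σ f
    have h2 := B.edge_le e0 M σ f e i
    rw [← Equiv.sum_comp (σ e)] at h1
    have h3 : ∑ γ, f (B.a e, γ, i) ^ 2 ≤
        ∑ γ, (2 * f (B.b e, σ e γ, i + if e = e0 then 1 else 0) ^ 2 +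
          2 * (f (B.a e, γ, i) - f (B.b e, σ e γ, i + if e = e0 then 1 else 0)) ^ 2) :=
      Finset.sum_le_sum fun γ _ ↦ by
        nlinarith [sq_nonneg (f (B.a e, γ, i) -
          2 * f (B.b e, σ e γ, i + if e = e0 then 1 else 0))]
    rw [Finset.sum_add_distrib, ← Finset.mul_sum, ← Finset.mul_sum] at h3
    linarith

/-- the base graph stays connected without `e0` -/
def Conn : Prop :=
  ∀ u, u ≠ 0 → ∃ e, e ≠ e0 ∧ (B.a e = u ∧ B.b e < u ∨ B.b e = u ∧ B.a e < u)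

theorem good_all (hc : B.Conn e0) (v : Fin (n + 1)) (i : ZMod M) : B.Good e0 M v i := by
  have h1 : ∀ (i : ZMod M) (u : Fin (n + 1)), B.Good e0 M u i ↔ B.Good e0 M 0 i := by
    intro i u
    induction u using WellFoundedLT.induction with
    | ind u ih =>
      by_cases hu : u = 0
      · rw [hu]
      obtain ⟨e, he, h⟩ := hc u hu
      have h2 := B.good_iff e0 M e i
      rw [if_neg he, add_zero] at h2
      rcases h with ⟨rfl, h⟩ | ⟨rfl, h⟩
      · rw [h2, ih _ h]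
      · rw [← h2, ih _ h]
  have h2 : ∀ k : ℕ, B.Good e0 M 0 k := by
    intro k
    induction k with
    | zero => simpa using B.good_zero e0 M
    | succ k ih =>
      have h3 := (B.good_iff e0 M e0 k).1 ((h1 _ _).2 ih)
      rw [if_pos rfl, h1] at h3
      simpa using h3
  rw [h1, ← ZMod.natCast_zmod_val i]
  exact h2 _

theorem poincare (hc : B.Conn e0) : ∃ C : ℝ, 0 ≤ C ∧ ∀ (Γ : Type) [Fintype Γ]
    (σ : E → Equiv.Perm Γ) (f : Fin (n + 1) × (Γ × ZMod M) → ℝ),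
    ∑ y, f y ^ 2 ≤ C * B.en e0 M σ f := by
  choose C h0 h using B.good_all e0 M hc
  refine ⟨∑ v, ∑ i, C v i, Finset.sum_nonneg fun _ _ ↦ Finset.sum_nonneg fun _ _ ↦ h0 _ _,
    fun Γ _ σ f ↦ ?_⟩
  rw [Fintype.sum_prod_type, Finset.sum_mul]
  refine Finset.sum_le_sum fun v _ ↦ ?_
  rw [Fintype.sum_prod_type_right, Finset.sum_mul]
  exact Finset.sum_le_sum fun i _ ↦ h v i Γ σ f

variable {B e0}

theorem ach (h : B.Sub) (hab : ∀ e, B.a e ≠ B.b e) (hc : B.Conn e0) {η : ℝ} (hη : 0 < η) :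
    ∃ K : ℕ, 0 < K ∧ Ach ((n + 1) * K) ((Fintype.card E + η) * K)
      ((1 + η) * (∑ v, 1 / B.A v []) * K) := by
  classical
  obtain ⟨M', hM⟩ := exists_nat_gt (1 / η)
  set M := M' + 1
  obtain ⟨C, hC, hP⟩ := B.poincare e0 M hc
  obtain ⟨L', hL⟩ := exists_nat_gt ((1 + 1 / (η / 2)) * C / (η / 2))
  obtain ⟨Γ, _, _, σ, hF⟩ := exists_free E (L' + 1)
  have hF' : Free (tw e0 M σ) (L' + 1) := hF.prod _
  let a : (E × (Γ × ZMod M)) ⊕ Γ → Option (Fin (n + 1) × (Γ × ZMod M)) :=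
    Sum.elim (fun p ↦ some (B.a p.1, p.2)) fun γ ↦ some (0, γ, 0)
  let b : (E × (Γ × ZMod M)) ⊕ Γ → Option (Fin (n + 1) × (Γ × ZMod M)) :=
    Sum.elim (fun p ↦ some (B.b p.1, tw e0 M σ p.1 p.2)) fun _ ↦ none
  have hne : ∀ i, a i ≠ b i := by
    rintro (p | γ)
    · simp [a, b, hab]
    · simp [a, b]
  have hrep : (Net.ofEdges a b hne).Rep
      ((1 + η) * (∑ v, 1 / B.A v []) * (Fintype.card Γ * M : ℕ)) := by
    refine ⟨fun y ↦ (1 + η) * (1 / B.A y.1 []), fun y ↦ by have := h.top y.1; positivity, ?_, ?_⟩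
    · rw [Fintype.sum_prod_type, Finset.mul_sum, Finset.sum_mul]
      refine le_of_eq (Finset.sum_congr rfl fun v _ ↦ ?_)
      simp [mul_comm]
    · rintro ⟨v, x⟩ f hf
      have h1 := h.point hF' (Nat.succ_pos _) (fun y ↦ f (some y)) v x (half_pos hη)
      have h2 := hP Γ σ fun y ↦ f (some y)
      have h3 : (Net.ofEdges a b hne).energy f = B.en e0 M σ fun y ↦ f (some y) := by
        rw [Net.energy_ofEdges, Fintype.sum_sum_type, en]
        simp [a, b, hf]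
      have h4 : ∑ p : E × (Γ × ZMod M), (f (some (B.a p.1, p.2)) -
          f (some (B.b p.1, tw e0 M σ p.1 p.2))) ^ 2 ≤ B.en e0 M σ fun y ↦ f (some y) :=
        le_add_of_nonneg_right (Finset.sum_nonneg fun _ _ ↦ sq_nonneg _)
      have h5 : 0 ≤ B.en e0 M σ fun y ↦ f (some y) := h3 ▸ Net.energy_nonneg _ _
      rw [h3]
      refine h1.trans ?_
      dsimp only
      rw [mul_comm (1 + η), mul_assoc]
      refine mul_le_mul_of_nonneg_left ?_ (by have := h.top v; positivity)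
      have h6 : (1 + 1 / (η / 2)) / ((L' + 1 : ℕ) : ℝ) * C ≤ η / 2 := by
        rw [div_lt_iff₀ (half_pos hη)] at hL
        rw [div_mul_eq_mul_div, div_le_iff₀ (by positivity)]
        push_cast
        nlinarith
      have h7 := mul_le_mul_of_nonneg_left h2
        (show 0 ≤ (1 + 1 / (η / 2)) / ((L' + 1 : ℕ) : ℝ) by positivity)
      have h8 := mul_le_mul_of_nonneg_right h6 h5
      have h9 := mul_le_mul_of_nonneg_left h4 (show 0 ≤ 1 + η / 2 by positivity)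
      nlinarith
  have hΓ : 0 < Fintype.card Γ := Fintype.card_pos
  refine ⟨Fintype.card Γ * M, by positivity, ?_⟩
  have h1 := ach_of_rep hrep
  rw [Net.edges_ofEdges] at h1
  simp only [Fintype.card_prod, Fintype.card_fin, ZMod.card, Fintype.card_sum] at h1
  refine h1.mono ?_ le_rfl
  rw [div_lt_iff₀ hη] at hM
  have hΓ' : (0 : ℝ) ≤ Fintype.card Γ := Nat.cast_nonneg _
  have : (1 : ℝ) ≤ η * M := by simp only [M]; push_cast; nlinarith
  push_cast
  nlinarith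

end Base

end Pool.Agent.Lib.MP_8d3748_co
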