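import Mathlib

/-! Rooted resistor networks: definitions. -/

open scoped ENNReal

namespace Pool.Agent.Lib.MP_8d3748_co

/-- a loopless multigraph on the vertex set `Option V`; the root is `none`, and `m x y` is the
number of edges between `x` and `y` -/
structure Net (V : Type) where
  m : Option V → Option V → ℕ
  symm : ∀ x y, m x y = m y x
  loop : ∀ x, m x x = 0

namespace Net

variable {V : Type} [Fintype V]

/-- the number of edges -/
noncomputable def edges (G : Net V) : ℝ := (∑ x, ∑ y, (G.m x y : ℝ)) / 2

/-- the energy `∑ over edges xy of (f x - f y)^2` of a potential -/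
noncomputable def energy (G : Net V) (f : Option V → ℝ) : ℝ :=
  (∑ x, ∑ y, (G.m x y : ℝ) * (f x - f y) ^ 2) / 2

/-- effective resistance (Dirichlet principle): the inverse of the least energy of a potential
with `f x = 0` and `f y = 1` -/
noncomputable def res (G : Net V) (x y : Option V) : ℝ≥0∞ :=
  (⨅ f : {f : Option V → ℝ // f x = 0 ∧ f y = 1}, ENNReal.ofReal (G.energy f.1))⁻¹

/-- the number of vertices of degree one -/
def leaves (G : Net V) : ℕ := (Finset.univ.filter fun x ↦ ∑ y, G.m x y = 1).card

/-- the average resistance to the root -/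
noncomputable def avg {n : ℕ} (G : Net (Fin n)) : ℝ≥0∞ := (∑ x, G.res none x) / n

/-- `G` has at most `α n / 2` edges and minimises the average resistance among such graphs -/
def Optimal {n : ℕ} (α : ℝ) (G : Net (Fin n)) : Prop :=
  G.edges ≤ α * n / 2 ∧ ∀ G' : Net (Fin n), G'.edges ≤ α * n / 2 → G.avg ≤ G'.avg

end Net

end Pool.Agent.Lib.MP_8d3748_co
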