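import Mathlib

/-! Finite permutation actions in which short reduced words act freely. -/

namespace Pool.Agent.Lib.MP_8d3748_co

variable {E X : Type}

/-- the permutation attached to a dart -/
def dperm (σ : E → Equiv.Perm X) (d : E × Bool) : Equiv.Perm X :=
  if d.2 then σ d.1 else (σ d.1)⁻¹

/-- the action of a word -/
def ev (σ : E → Equiv.Perm X) : List (E × Bool) → X → X
  | [], x => x
  | d :: w, x => dperm σ d (ev σ w x)

/-- short reduced words are separated at every point -/
def Free (σ : E → Equiv.Perm X) (L : ℕ) : Prop :=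
  ∀ x w w', w.length ≤ L → w'.length ≤ L → FreeGroup.IsReduced w → FreeGroup.IsReduced w' →
    ev σ w x = ev σ w' x → w = w'

theorem exists_perm_ball {G : Type} [Group G] (B : Set G) (hB : B.Finite) (g : G) :
    ∃ τ : Equiv.Perm B, ∀ x y : B, (y : G) = g * x → τ x = y := by
  classical
  have := hB.to_subtype
  let e : {x : B // g * x ∈ B} ≃ {y : B // g⁻¹ * y ∈ B} :=
    { toFun := fun x ↦ ⟨⟨g * x.1, x.2⟩, by simp⟩
      invFun := fun y ↦ ⟨⟨g⁻¹ * y.1, y.2⟩, by simp⟩
      left_inv := fun x ↦ by ext; simp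
      right_inv := fun y ↦ by ext; simp }
  refine ⟨e.extendSubtype, fun x y h ↦ ?_⟩
  rw [e.extendSubtype_apply_of_mem x (h ▸ y.2)]
  ext
  exact h.symm

theorem exists_free (E : Type) [Finite E] (L : ℕ) :
    ∃ (X : Type) (_ : Fintype X) (_ : Nonempty X) (σ : E → Equiv.Perm X), Free σ L := by
  classical
  set B : Set (FreeGroup E) := FreeGroup.mk '' {l | l.length ≤ L} with hBdef
  have hB : B.Finite := (List.finite_length_le _ L).image _
  have := hB.to_subtype
  choose τ hτ using fun e : E ↦ exists_perm_ball B hB (FreeGroup.of e)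
  have h1 : ∀ (w : List (E × Bool)) (γ : Equiv.Perm B) (x : B),
      ev (fun e ↦ Equiv.mulLeft (τ e)) w γ x = ev τ w (γ x) := by
    intro w γ x
    induction w with
    | nil => rfl
    | cons d w ih =>
      simp only [ev, dperm]
      split_ifs
      · simp [ih]
      · simp [Equiv.Perm.inv_def, ← ih]
  have h2 : ∀ (w : List (E × Bool)) (hw : w.length ≤ L),
      ev τ w ⟨FreeGroup.mk [], [], by simp, rfl⟩ = ⟨FreeGroup.mk w, w, hw, rfl⟩ := by
    intro w
    induction w with
    | nil => intro _; rfl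
    | cons d w ih =>
      intro hw
      obtain ⟨e, x⟩ := d
      simp only [ev, dperm]
      rw [ih (by simp at hw; omega)]
      cases x
      · simp only [Bool.false_eq_true, if_false]
        rw [Equiv.Perm.inv_eq_iff_eq]
        refine (hτ e _ _ ?_).symm
        simp only [FreeGroup.of, FreeGroup.mul_mk]
        exact (Quot.sound (FreeGroup.Red.Step.cons_not (x := e) (b := true))).symm
      · simp only [if_true]
        refine hτ e _ _ ?_
        simp [FreeGroup.of, FreeGroup.mul_mk]
  refine ⟨Equiv.Perm B, Fintype.ofFinite _, ⟨1⟩, fun e ↦ Equiv.mulLeft (τ e),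
    fun γ w w' hw hw' r r' h ↦ ?_⟩
  have h3 := congrArg (fun p : Equiv.Perm B ↦ p (γ.symm ⟨FreeGroup.mk [], [], by simp, rfl⟩)) h
  simp only [h1, Equiv.apply_symm_apply, h2 w hw, h2 w' hw', Subtype.mk.injEq] at h3
  have h4 := FreeGroup.reduce.sound h3
  rwa [r.reduce_eq, r'.reduce_eq] at h4

theorem Free.prod {Y : Type} {σ : E → Equiv.Perm X} {L : ℕ} (h : Free σ L)
    (ρ : E → Equiv.Perm Y) : Free (fun e ↦ Equiv.prodCongr (σ e) (ρ e)) L := by
  have h1 : ∀ (w : List (E × Bool)) (p : X × Y),
      (ev (fun e ↦ Equiv.prodCongr (σ e) (ρ e)) w p).1 = ev σ w p.1 := by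
    intro w p
    induction w with
    | nil => rfl
    | cons d w ih =>
      simp only [ev, dperm]
      split_ifs
      · simp [ih]
      · simp [Equiv.Perm.inv_def, ← ih]
  intro p w w' hw hw' r r' he
  refine h p.1 w w' hw hw' r r' ?_
  rw [← h1, ← h1, he]

end Pool.Agent.Lib.MP_8d3748_co
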