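import Pool.Agent.Lib.MP_8d3748_co.Cover

/-! An explicit base graph with 14 vertices and 23 edges. -/

open Finset

namespace Pool.Agent.Lib.MP_8d3748_co

def cT : Fin 23 → ℕ := ![61620331, 55128562, 55133732, 61463378, 61463378, 53597567, 53557412,
  52155885, 53551934, 53551934, 53551521, 61620331, 55128562, 55133732, 61463378, 61463378,
  53597567, 53557412, 52155885, 53551934, 53551934, 53551521, 53869910]

def cF : Fin 23 → ℕ := ![52440354, 53864762, 53863662, 53501552, 53501552, 55142216, 61428644,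
  61636035, 61429459, 61429459, 61455955, 52440354, 53864762, 53863662, 53501552, 53501552,
  55142216, 61428644, 61636035, 61429459, 61429459, 61455955, 53869910]

def cq (d : Fin 23 × Bool) : ℚ := ((if d.2 then cT d.1 else cF d.1 : ℕ) : ℚ) / 100000000

/-- the base graph -/
noncomputable def base : Base (Fin 14) (Fin 23) where
  a := ![0, 0, 0, 6, 6, 6, 3, 3, 3, 3, 4, 13, 13, 13, 8, 8, 8, 9, 9, 9, 9, 10, 5]
  b := ![4, 1, 2, 4, 4, 5, 2, 5, 1, 1, 2, 10, 12, 11, 10, 10, 7, 11, 7, 12, 12, 11, 7]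
  c d := cq d

theorem base_A (v : Fin 14) (w : List (Fin 23 × Bool)) :
    base.A v w = ((∑ d ∈ base.nx v w, cq d : ℚ) : ℝ) := by
  simp [Base.A, base]

theorem base_sub : base.Sub where
  pos d := by
    have : ∀ d, 0 < cq d := by decide +kernel
    change (0 : ℝ) < cq d
    exact_mod_cast this d
  le v d := by
    have : ∀ d, cq d * (∑ d ∈ base.nx 0 [d], cq d + 1) ≤ ∑ d ∈ base.nx 0 [d], cq d := by
      decide +kernel
    change (cq d : ℝ) * (base.A 0 [d] + 1) ≤ base.A 0 [d]
    rw [base_A]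
    exact_mod_cast this d
  top v := by
    have : ∀ v, 0 < ∑ d ∈ base.nx v [], cq d := by decide +kernel
    rw [base_A]
    exact_mod_cast this v

theorem base_sum : ∑ v, 1 / base.A v [] ≤ 761061 / 100000 := by
  have : ∑ v, 1 / ∑ d ∈ base.nx v [], cq d ≤ 761061 / 100000 := by decide +kernel
  have h2 := (Rat.cast_le (K := ℝ)).2 this
  simp only [base_A]
  push_cast at h2 ⊢
  exact h2

theorem ach_H {η : ℝ} (hη : 0 < η) :
    ∃ K : ℕ, 0 < K ∧ Ach (14 * K) ((23 + η) * K) ((761061 / 100000 + η) * K) := by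
  have hc : base.Conn 0 := by unfold Base.Conn; decide +kernel
  obtain ⟨K, hK, h⟩ := Base.ach base_sub (by decide +kernel) hc (show 0 < η / 8 by positivity)
  refine ⟨K, hK, h.mono ?_ ?_⟩
  · simp only [Fintype.card_fin]
    have : (0 : ℝ) ≤ K := Nat.cast_nonneg _
    push_cast
    nlinarith
  · refine mul_le_mul_of_nonneg_right ?_ (Nat.cast_nonneg _)
    have := mul_le_mul_of_nonneg_left base_sum (show 0 ≤ 1 + η / 8 by positivity)
    linarith

end Pool.Agent.Lib.MP_8d3748_co
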