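import Pool.Agent.Lib.MP_8d3748_co.Cert

/-! Removing all leaves. -/

open Finset

namespace Pool.Agent.Lib.MP_8d3748_co

namespace Net

variable {V : Type} [Fintype V]

theorem nl_le (G : Net V) : G.nl ≤ G.leaves ∧ G.leaves ≤ G.nl + 1 := by
  simp only [nl, leaves, Finset.card_filter]
  rw [Fintype.sum_option (fun x ↦ if ∑ y, G.m x y = 1 then 1 else 0)]
  split_ifs <;> omega

theorem nl_le_card (G : Net V) : G.nl ≤ Fintype.card V := Finset.card_le_univ _

theorem eq_of_sum_one {ι : Type} [Fintype ι] {m : ι → ℕ} (h : ∑ y, m y = 1) {y y' : ι}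
    (hy : m y ≠ 0) (hy' : y' ≠ y) : m y' = 0 := by
  classical
  have := Finset.sum_le_sum_of_subset (f := m) (Finset.subset_univ {y', y})
  rw [Finset.sum_pair hy'] at this
  omega

theorem sum_of_sum_one {ι : Type} [Fintype ι] {m : ι → ℕ} (h : ∑ y, m y = 1) {y : ι}
    (hy : m y ≠ 0) (g : ι → ℝ) : ∑ z, (m z : ℝ) * g z = g y := by
  have h1 : m y = 1 := by
    rw [← h, Finset.sum_eq_single y (fun z _ hz ↦ eq_of_sum_one h hy hz) (by simp)]
  rw [Finset.sum_eq_single y (fun z _ hz ↦ by simp [eq_of_sum_one h hy hz]) (by simp), h1]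
  simp

theorem sum_split (P : V → Prop) [DecidablePred P] (F : Option V → ℝ) :
    ∑ x, F x = ∑ x : Option {v // ¬ P v}, F (x.map Subtype.val) +
      ∑ v : {v // P v}, F (some v) := by
  rw [Fintype.sum_option, Fintype.sum_option, ← Fintype.sum_subtype_add_sum_subtype P]
  simp only [Option.map_none, Option.map_some]
  ring

theorem Rep.remove {G : Net V} {X : ℝ} (h : G.Rep X) :
    Ach (Fintype.card V - G.nl) (G.edges - G.nl) (X - G.nl) := by
  classical
  obtain ⟨R, h0, h1, h2⟩ := h
  set P : V → Prop := fun v ↦ ∑ y, G.m (some v) y = 1 with hP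
  have hc0 : ∀ v, P v → G.cond 0 v = 1 := by
    intro v hv
    simp only [cond, msg, sub_zero, mul_one]
    exact_mod_cast hv
  have hR : ∀ v, P v → 1 ≤ R v := by
    intro v hv
    simpa [hc0 v hv] using (h2 v).one_le (h0 v) 0
  have hadj : ∀ u v, P u → P v → G.m (some u) (some v) = 0 := by
    intro u v hu hv
    by_contra hm
    have h3 := (h2 u).one_le (h0 u) 1
    rw [cond, sum_of_sum_one hu hm, msg_succ, if_neg (by rwa [G.symm]), hc0 v hv] at h3
    simp [msg] at h3
    linarith
  have hcard : Fintype.card {v // P v} = G.nl := Fintype.card_subtype _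
  let G' : Net {v // ¬ P v} :=
    { m := fun x y ↦ G.m (x.map Subtype.val) (y.map Subtype.val)
      symm := fun _ _ ↦ G.symm _ _
      loop := fun _ ↦ G.loop _ }
  have hsum : ∀ F : Option V → Option V → ℝ, (∀ x y, F x y = F y x) →
      ∑ x, ∑ y, (G.m x y : ℝ) * F x y =
      ∑ x, ∑ y, (G'.m x y : ℝ) * F (x.map Subtype.val) (y.map Subtype.val) +
        2 * ∑ v : {v // P v}, ∑ y, (G.m (some v) y : ℝ) * F (some v) y := by
    intro F hF
    have k1 : ∀ v : {v // P v}, ∑ y, (G.m (some v) y : ℝ) * F (some v) y =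
        ∑ y : Option {v // ¬ P v}, (G.m (y.map Subtype.val) (some v) : ℝ) *
          F (y.map Subtype.val) (some v) := by
      intro v
      rw [sum_split P]
      simp only [fun u : {v // P v} ↦ hadj v u v.2 u.2, Nat.cast_zero, zero_mul,
        Finset.sum_const_zero, add_zero]
      exact Finset.sum_congr rfl fun y _ ↦ by rw [G.symm, hF]
    rw [sum_split P, Finset.sum_congr rfl fun (x : Option {v // ¬ P v}) _ ↦
      sum_split P fun y ↦ (G.m (x.map Subtype.val) y : ℝ) * F (x.map Subtype.val) y,
      Finset.sum_add_distrib, Finset.sum_congr rfl fun v _ ↦ k1 v,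
      Finset.sum_comm (s := (univ : Finset {v // P v}))]
    simp only [G']
    ring
  have he : G'.edges = G.edges - G.nl := by
    have := hsum (fun _ _ ↦ 1) fun _ _ ↦ rfl
    simp only [mul_one] at this
    have h3 : ∑ v : {v // P v}, ∑ y, (G.m (some v) y : ℝ) = G.nl := by
      rw [Finset.sum_congr rfl (g := fun _ ↦ 1) fun v _ ↦ by exact_mod_cast v.2]
      simp [hcard]
    unfold edges
    rw [this, h3]
    ring
  have hrep : G'.Rep (X - G.nl) := by
    refine ⟨fun v ↦ R v, fun v ↦ h0 v, ?_, fun v f' hf' ↦ ?_⟩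
    · rw [← Fintype.sum_subtype_add_sum_subtype P] at h1
      have := Finset.card_nsmul_le_sum univ (fun v : {v // P v} ↦ R v) 1 fun v _ ↦ hR v v.2
      rw [Finset.card_univ, hcard, nsmul_eq_mul] at this
      linarith
    · let g : Option V → ℝ := fun x ↦ x.elim 0 fun v ↦ if hv : P v then 0 else f' (some ⟨v, hv⟩)
      let f : Option V → ℝ := fun x ↦ x.elim 0 fun v ↦
        if P v then ∑ y, (G.m (some v) y : ℝ) * g y else g (some v)
      have hf : ∀ x : Option {v // ¬ P v}, f (x.map Subtype.val) = f' x := by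
        rintro (_ | x)
        · exact hf'.symm
        · simp [f, g, x.2]
      have hz : ∀ (v : {v // P v}) y, (G.m (some v) y : ℝ) * (f (some v) - f y) ^ 2 = 0 := by
        intro v y
        by_cases hm : G.m (some v) y = 0
        · simp [hm]
        have h3 : f (some v) = g y := by
          simp only [f, Option.elim_some, if_pos v.2]
          exact sum_of_sum_one v.2 hm g
        have h4 : f y = g y := by
          rcases y with _ | y
          · rfl
          · have : ¬ P y := fun hy ↦ hm (hadj v y v.2 hy)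
            simp [f, this]
        rw [h3, h4]
        simp
      have h3 := h2 v f rfl
      have h4 := hsum (fun x y ↦ (f x - f y) ^ 2) fun _ _ ↦ by ring
      simp only [hz, hf, Finset.sum_const_zero, mul_zero, add_zero] at h4
      rw [energy, h4] at h3
      rw [← hf (some v)]
      exact h3
  have h3 := ach_of_rep hrep
  rwa [he, Fintype.card_subtype_compl, hcard] at h3

end Net

end Pool.Agent.Lib.MP_8d3748_co
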