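import Pool.Agent.Lib.MP_8d3748_co.Basic

/-! Lower bounds for resistances by messages on the universal cover. -/

open Finset

namespace Pool.Agent.Lib.MP_8d3748_co

namespace Net

variable {V : Type} [Fintype V]

/-- degree of a vertex -/
noncomputable def deg (G : Net V) (x : Option V) : ℝ := ∑ y, (G.m x y : ℝ)

/-- the message sent from `y` to `x` after `L` rounds -/
noncomputable def msg (G : Net V) : ℕ → Option V → V → ℝ
  | 0, _, _ => 0
  | _ + 1, none, _ => 0
  | L + 1, some y, x => if G.m (some y) (some x) = 0 then 0 else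
      1 / (∑ z, (G.m (some y) z : ℝ) * (1 - msg G L z y) + msg G L (some x) y)

/-- the conductance bound at `y` after `L` rounds -/
noncomputable def cond (G : Net V) (L : ℕ) (y : V) : ℝ :=
  ∑ z, (G.m (some y) z : ℝ) * (1 - G.msg L z y)

theorem msg_none (G : Net V) (L : ℕ) (x : V) : G.msg L none x = 0 := by
  cases L <;> rfl

theorem msg_succ (G : Net V) (L : ℕ) (y x : V) : G.msg (L + 1) (some y) x =
    if G.m (some y) (some x) = 0 then 0 else 1 / (G.cond L y + G.msg L (some x) y) := rfl

theorem one_le_cond_add (G : Net V) (L : ℕ) (h : ∀ z y, G.msg L z y ≤ 1) {y : V} {x : Option V}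
    (hm : G.m (some y) x ≠ 0) : 1 ≤ G.cond L y + G.msg L x y := by
  have h1 : (G.m (some y) x : ℝ) * (1 - G.msg L x y) ≤ G.cond L y :=
    Finset.single_le_sum (f := fun z ↦ (G.m (some y) z : ℝ) * (1 - G.msg L z y))
      (fun z _ ↦ mul_nonneg (Nat.cast_nonneg _) (sub_nonneg.2 (h z y))) (Finset.mem_univ x)
  have h2 : (1 : ℝ) ≤ G.m (some y) x := by exact_mod_cast Nat.pos_of_ne_zero hm
  nlinarith [h x y]

theorem msg_mem (G : Net V) (L : ℕ) : ∀ z y, 0 ≤ G.msg L z y ∧ G.msg L z y ≤ 1 := by
  induction L with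
  | zero => intro z y; simp [msg]
  | succ L ih =>
    rintro (_ | z) y
    · simp [msg]
    · rw [msg_succ]
      split_ifs with h
      · simp
      · have := G.one_le_cond_add L (fun z y ↦ (ih z y).2) h
        exact ⟨by positivity, by rw [div_le_one (by linarith)]; exact this⟩

theorem cond_eq (G : Net V) (L : ℕ) (y : V) :
    G.cond L y = G.deg (some y) - ∑ z, (G.m (some y) (some z) : ℝ) * G.msg L (some z) y := by
  simp only [cond, deg, mul_sub, mul_one, Finset.sum_sub_distrib]
  rw [Fintype.sum_option (fun z ↦ (G.m (some y) z : ℝ) * G.msg L z y), msg_none]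
  simp

open Classical in
theorem exists_test (G : Net V) (L : ℕ) : ∀ (y : V) (ε : V → ℝ),
    (∀ z, ε z ≤ G.m (some y) (some z)) → ∃ (φ : V → ℝ) (P : V → V → ℝ), (∀ v, 0 ≤ φ v) ∧
      1 ≤ φ y ∧ (∀ u v a b, 2 * P u v * a * b + (if u = y then ε v * a ^ 2 else 0) +
        (if v = y then ε u * b ^ 2 else 0) ≤
          G.m (some u) (some v) * (φ u * a ^ 2 + φ v * b ^ 2)) ∧
      ∑ v, G.deg (some v) * φ v - ∑ u, ∑ v, P u v =
        G.deg (some y) - ∑ z, (G.m (some y) (some z) - ε z) * G.msg L (some z) y := by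
  induction L with
  | zero =>
    intro y ε hε
    refine ⟨fun v ↦ if v = y then 1 else 0, fun _ _ ↦ 0, fun v ↦ by positivity, by simp,
      fun u v a b ↦ ?_, by simp [msg]⟩
    have h1 : (if u = y then ε v * a ^ 2 else 0) ≤
        G.m (some u) (some v) * ((if u = y then 1 else 0) * a ^ 2) := by
      split_ifs with h
      · subst h; have := hε v; nlinarith [sq_nonneg a]
      · simp
    have h2 : (if v = y then ε u * b ^ 2 else 0) ≤
        G.m (some u) (some v) * ((if v = y then 1 else 0) * b ^ 2) := by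
      split_ifs with h
      · subst h; have := hε u; rw [G.symm] at this; nlinarith [sq_nonneg b]
      · simp
    simp only [mul_add]
    linarith
  | succ L ih =>
    intro y ε hε
    have hex : ∀ z : V, ∃ (φ : V → ℝ) (P : V → V → ℝ), (∀ v, 0 ≤ φ v) ∧
        (∀ u v a b, G.msg (L + 1) (some z) y ^ 2 * (2 * P u v * a * b +
          (if u = z ∧ v = y then a ^ 2 else 0) + (if u = y ∧ v = z then b ^ 2 else 0)) ≤
          G.msg (L + 1) (some z) y ^ 2 *
            (G.m (some u) (some v) * (φ u * a ^ 2 + φ v * b ^ 2))) ∧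
        G.msg (L + 1) (some z) y ^ 2 * (∑ v, G.deg (some v) * φ v - ∑ u, ∑ v, P u v) =
          G.msg (L + 1) (some z) y := by
      intro z
      by_cases hm : G.m (some z) (some y) = 0
      · exact ⟨0, 0, fun _ ↦ le_rfl, by simp [msg_succ, hm], by simp [msg_succ, hm]⟩
      obtain ⟨φ, P, h0, -, h2, h3⟩ := ih z (fun w ↦ if w = y then 1 else 0) (fun w ↦ by
        split_ifs with h
        · subst h; exact_mod_cast Nat.pos_of_ne_zero hm
        · positivity)
      refine ⟨φ, P, h0, fun u v a b ↦ mul_le_mul_of_nonneg_left ?_ (sq_nonneg _), ?_⟩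
      · refine le_trans (le_of_eq ?_) (h2 u v a b)
        simp only [ite_mul, one_mul, zero_mul, ← ite_and, and_comm (a := v = z)]
      · have h4 := G.one_le_cond_add L (fun z y ↦ (G.msg_mem L z y).2) hm
        have h5 : ∑ v, G.deg (some v) * φ v - ∑ u, ∑ v, P u v =
            G.cond L z + G.msg L (some y) z := by
          rw [h3, cond_eq]
          simp only [sub_mul, Finset.sum_sub_distrib, ite_mul, one_mul, zero_mul,
            Finset.sum_ite_eq', Finset.mem_univ, if_true]
          ring
        rw [h5, msg_succ, if_neg hm]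
        field_simp
    choose φ P h0 h2 h3 using hex
    set t : V → ℝ := fun z ↦ G.msg (L + 1) (some z) y with ht
    set μ : V → ℝ := fun z ↦ G.m (some y) (some z) - ε z with hμ
    have hμ0 : ∀ z, 0 ≤ μ z := fun z ↦ sub_nonneg.2 (hε z)
    refine ⟨fun v ↦ (if v = y then 1 else 0) + ∑ z, μ z * (t z ^ 2 * φ z v),
      fun u v ↦ ∑ z, μ z * (t z * ((if u = y ∧ v = z then 1 else 0) +
        if u = z ∧ v = y then 1 else 0) + t z ^ 2 * P z u v), fun v ↦ ?_, ?_,
      fun u v a b ↦ ?_, ?_⟩
    · have := Finset.sum_nonneg fun z (_ : z ∈ univ) ↦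
        mul_nonneg (hμ0 z) (mul_nonneg (sq_nonneg (t z)) (h0 z v))
      positivity
    · have := Finset.sum_nonneg fun z (_ : z ∈ univ) ↦
        mul_nonneg (hμ0 z) (mul_nonneg (sq_nonneg (t z)) (h0 z y))
      simpa using this
    · have key : ∀ z, 2 * (μ z * (t z * ((if u = y ∧ v = z then 1 else 0) +
          if u = z ∧ v = y then 1 else 0) + t z ^ 2 * P z u v)) * a * b ≤
          (if z = v then (if u = y then μ v * a ^ 2 else 0) else 0) +
          (if z = u then (if v = y then μ u * b ^ 2 else 0) else 0) +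
          G.m (some u) (some v) * (μ z * (t z ^ 2 * φ z u) * a ^ 2 +
            μ z * (t z ^ 2 * φ z v) * b ^ 2) := by
        intro z
        have k1 := mul_le_mul_of_nonneg_left (h2 z u v a b) (hμ0 z)
        have k2 : 2 * (μ z * (t z * if u = y ∧ v = z then 1 else 0)) * a * b ≤
            (if z = v then (if u = y then μ v * a ^ 2 else 0) else 0) +
              μ z * (t z ^ 2 * if u = y ∧ v = z then b ^ 2 else 0) := by
          by_cases h : u = y ∧ v = z
          · obtain ⟨rfl, rfl⟩ := h
            simp only [and_self, if_true]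
            nlinarith [mul_nonneg (hμ0 v) (sq_nonneg (a - t v * b))]
          · rw [if_neg h, if_neg h]
            have := mul_nonneg (hμ0 v) (sq_nonneg a)
            split_ifs <;> simp [this]
        have k3 : 2 * (μ z * (t z * if u = z ∧ v = y then 1 else 0)) * a * b ≤
            (if z = u then (if v = y then μ u * b ^ 2 else 0) else 0) +
              μ z * (t z ^ 2 * if u = z ∧ v = y then a ^ 2 else 0) := by
          by_cases h : u = z ∧ v = y
          · obtain ⟨rfl, rfl⟩ := h
            simp only [and_self, if_true]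
            nlinarith [mul_nonneg (hμ0 u) (sq_nonneg (b - t u * a))]
          · rw [if_neg h, if_neg h]
            have := mul_nonneg (hμ0 u) (sq_nonneg b)
            split_ifs <;> simp [this]
        simp only [ht] at k1 k2 k3 ⊢
        nlinarith
      have hs := Finset.sum_le_sum fun z (_ : z ∈ univ) ↦ key z
      simp only [Finset.sum_add_distrib, Finset.sum_ite_eq', Finset.mem_univ, if_true,
        ← Finset.mul_sum, ← Finset.sum_mul] at hs
      have e1 : (if u = y then μ v * a ^ 2 else 0) + (if u = y then ε v * a ^ 2 else 0) =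
          G.m (some u) (some v) * ((if u = y then 1 else 0) * a ^ 2) := by
        split_ifs with h
        · subst h; simp only [hμ]; ring
        · simp
      have e2 : (if v = y then μ u * b ^ 2 else 0) + (if v = y then ε u * b ^ 2 else 0) =
          G.m (some u) (some v) * ((if v = y then 1 else 0) * b ^ 2) := by
        split_ifs with h
        · subst h; simp only [hμ]; rw [G.symm (some u)]; ring
        · simp
      nlinarith
    · have e1 : ∑ v, G.deg (some v) * ((if v = y then 1 else 0) + ∑ z, μ z * (t z ^ 2 * φ z v)) =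
          G.deg (some y) + ∑ z, μ z * (t z ^ 2 * ∑ v, G.deg (some v) * φ z v) := by
        simp only [mul_add, Finset.sum_add_distrib, mul_ite, mul_one, mul_zero,
          Finset.sum_ite_eq', Finset.mem_univ, if_true, Finset.mul_sum]
        rw [Finset.sum_comm]
        congr 1
        refine Finset.sum_congr rfl fun z _ ↦ Finset.sum_congr rfl fun v _ ↦ by ring
      have e2 : ∑ u, ∑ v, ∑ z, μ z * (t z * ((if u = y ∧ v = z then 1 else 0) +
          if u = z ∧ v = y then 1 else 0) + t z ^ 2 * P z u v) =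
          ∑ z, μ z * (2 * t z + t z ^ 2 * ∑ u, ∑ v, P z u v) := by
        rw [Finset.sum_congr rfl fun u _ ↦ Finset.sum_comm, Finset.sum_comm]
        refine Finset.sum_congr rfl fun z _ ↦ ?_
        simp only [← Finset.mul_sum, Finset.sum_add_distrib, ite_and, Finset.sum_ite_eq',
          Finset.mem_univ, if_true, Finset.sum_ite_irrel, Finset.sum_const_zero]
        ring
      rw [e1, e2, add_sub_assoc, ← Finset.sum_sub_distrib, sub_eq_add_neg,
        ← Finset.sum_neg_distrib]
      congr 1
      refine Finset.sum_congr rfl fun z _ ↦ ?_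
      have := h3 z
      simp only [ht, hμ]
      linear_combination (G.m (some y) (some z) - ε z) * this

theorem energy_eq (G : Net V) (f : Option V → ℝ) (hf : f none = 0) :
    G.energy f = ∑ v, G.deg (some v) * f (some v) ^ 2 -
      ∑ u, ∑ v, (G.m (some u) (some v) : ℝ) * (f (some u) * f (some v)) := by
  have h1 : ∑ x, ∑ y, (G.m x y : ℝ) * f x ^ 2 = ∑ v, G.deg (some v) * f (some v) ^ 2 := by
    rw [Fintype.sum_option]
    simp only [hf, deg, Finset.sum_mul]
    simp
  have h2 : ∑ x, ∑ y, (G.m x y : ℝ) * f y ^ 2 = ∑ v, G.deg (some v) * f (some v) ^ 2 := by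
    rw [← h1, Finset.sum_comm]
    exact Finset.sum_congr rfl fun x _ ↦ Finset.sum_congr rfl fun y _ ↦ by rw [G.symm]
  have h3 : ∑ x, ∑ y, (G.m x y : ℝ) * (f x * f y) =
      ∑ u, ∑ v, (G.m (some u) (some v) : ℝ) * (f (some u) * f (some v)) := by
    simp [Fintype.sum_option, hf]
  have h4 : ∑ x, ∑ y, (G.m x y : ℝ) * (f x - f y) ^ 2 = ∑ x, ∑ y, (G.m x y : ℝ) * f x ^ 2 +
      ∑ x, ∑ y, (G.m x y : ℝ) * f y ^ 2 - 2 * ∑ x, ∑ y, (G.m x y : ℝ) * (f x * f y) := by
    simp only [Finset.mul_sum, ← Finset.sum_add_distrib, ← Finset.sum_sub_distrib]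
    exact Finset.sum_congr rfl fun x _ ↦ Finset.sum_congr rfl fun y _ ↦ by ring
  unfold energy
  rw [h4, h1, h2, h3]
  ring

theorem UB.one_le {G : Net V} {x : V} {R : ℝ} (h : G.UB x R) (hR : 0 ≤ R) (L : ℕ) :
    1 ≤ R * G.cond L x := by
  classical
  obtain ⟨φ, P, h0, h1, h2, h3⟩ := G.exists_test L x 0 (fun z ↦ Nat.cast_nonneg _)
  simp only [Pi.zero_apply, zero_mul, ite_self, add_zero, sub_zero] at h2 h3
  rw [← cond_eq] at h3
  set f : Option V → ℝ := fun o ↦ o.elim 0 fun v ↦ √(φ v) with hf
  have hsq : ∀ v, f (some v) ^ 2 = φ v := fun v ↦ Real.sq_sqrt (h0 v)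
  have hf0 : ∀ v, 0 ≤ f (some v) := fun v ↦ Real.sqrt_nonneg _
  have hP : ∀ u v, P u v ≤ (G.m (some u) (some v) : ℝ) * (f (some u) * f (some v)) := by
    intro u v
    have hm : (0 : ℝ) ≤ G.m (some u) (some v) := Nat.cast_nonneg _
    by_contra hn
    push Not at hn
    have hpos : 0 < P u v := lt_of_le_of_lt (mul_nonneg hm (mul_nonneg (hf0 u) (hf0 v))) hn
    rcases (hf0 u).eq_or_lt with hu | hu
    · have h5 : φ u = 0 := by rw [← hsq, ← hu]; simp
      have h6 := h2 u v ((G.m (some u) (some v) * φ v + 1) / P u v) 1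
      rw [h5] at h6
      have : P u v * ((G.m (some u) (some v) * φ v + 1) / P u v) =
          G.m (some u) (some v) * φ v + 1 := by field_simp
      have h7 := mul_nonneg hm (h0 v)
      nlinarith
    rcases (hf0 v).eq_or_lt with hv | hv
    · have h5 : φ v = 0 := by rw [← hsq, ← hv]; simp
      have h6 := h2 u v 1 ((G.m (some u) (some v) * φ u + 1) / P u v)
      rw [h5] at h6
      have : P u v * ((G.m (some u) (some v) * φ u + 1) / P u v) =
          G.m (some u) (some v) * φ u + 1 := by field_simp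
      have h7 := mul_nonneg hm (h0 u)
      nlinarith
    have h6 := h2 u v (f (some v)) (f (some u))
    rw [← hsq u, ← hsq v] at h6
    have := mul_lt_mul_of_pos_right hn (mul_pos hu hv)
    nlinarith
  have hE : G.energy f ≤ G.cond L x := by
    rw [energy_eq G f rfl, ← h3]
    simp only [hsq]
    have := Finset.sum_le_sum fun u (_ : u ∈ univ) ↦
      Finset.sum_le_sum fun v (_ : v ∈ univ) ↦ hP u v
    linarith
  have h5 := h f rfl
  rw [hsq] at h5
  nlinarith [mul_le_mul_of_nonneg_left hE hR]

end Net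

end Pool.Agent.Lib.MP_8d3748_co
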