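import Pool.Agent.Lib.MP_8d3748_co.Girth

/-! Flows along non-backtracking walks in a covering graph of large girth. -/

open Finset

namespace Pool.Agent.Lib.MP_8d3748_co

/-- a base graph with edge `e` from `a e` to `b e`, and a number on each dart -/
structure Base (V E : Type) where
  a : E → V
  b : E → V
  c : E × Bool → ℝ

namespace Base

variable {V E X : Type} [Fintype E] [DecidableEq V] [DecidableEq E] (B : Base V E)

def src (d : E × Bool) : V := if d.2 then B.a d.1 else B.b d.1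

def tgt (d : E × Bool) : V := if d.2 then B.b d.1 else B.a d.1

/-- the darts which can extend a walk from `v` (the last dart comes first) -/
def nx (v : V) : List (E × Bool) → Finset (E × Bool)
  | [] => univ.filter fun d' ↦ B.src d' = v
  | d :: _ => univ.filter fun d' ↦ B.src d' = B.tgt d ∧ d' ≠ (d.1, !d.2)

noncomputable def A (v : V) (w : List (E × Bool)) : ℝ := ∑ d ∈ B.nx v w, B.c d

noncomputable def th (v : V) : List (E × Bool) → ℝ
  | [] => 1
  | d :: w => th v w * B.c d / B.A v w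

def W (v : V) : ℕ → Finset (List (E × Bool))
  | 0 => {[]}
  | k + 1 => (W v k).biUnion fun w ↦ (B.nx v w).image fun d ↦ d :: w

def tv (v : V) : List (E × Bool) → V
  | [] => v
  | d :: _ => B.tgt d

/-- the numbers form a subsolution of the conductance recursion -/
structure Sub : Prop where
  pos : ∀ d, 0 < B.c d
  le : ∀ v d, B.c d * (B.A v [d] + 1) ≤ B.A v [d]
  top : ∀ v, 0 < B.A v []

theorem sum_W_succ (v : V) (k : ℕ) (F : List (E × Bool) → ℝ) :
    ∑ w ∈ B.W v (k + 1), F w = ∑ w ∈ B.W v k, ∑ d ∈ B.nx v w, F (d :: w) := by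
  rw [W, Finset.sum_biUnion]
  · refine Finset.sum_congr rfl fun w _ ↦ Finset.sum_image fun d _ d' _ h ↦ ?_
    exact (List.cons.inj h).1
  · intro w _ w' _ hne
    rw [Function.onFun, Finset.disjoint_left]
    intro u hu hu'
    obtain ⟨d, -, rfl⟩ := Finset.mem_image.1 hu
    obtain ⟨d', -, h⟩ := Finset.mem_image.1 hu'
    exact hne (List.cons.inj h).2.symm

theorem src_eq {v : V} {w : List (E × Bool)} {d : E × Bool} (h : d ∈ B.nx v w) :
    B.src d = B.tv v w := by
  cases w with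
  | nil => simpa [nx, tv] using h
  | cons d' w => exact (Finset.mem_filter.1 h).2.1

theorem red_cons {v : V} {w : List (E × Bool)} {d : E × Bool} (h : d ∈ B.nx v w)
    (hw : FreeGroup.IsReduced w) : FreeGroup.IsReduced (d :: w) := by
  cases w with
  | nil => exact FreeGroup.IsReduced.singleton
  | cons d' w =>
    refine FreeGroup.isReduced_cons_cons.2 ⟨fun h1 ↦ ?_, hw⟩
    have h2 := (Finset.mem_filter.1 h).2.2
    by_contra h3
    exact h2 (Prod.ext h1 (by simpa using Bool.eq_not_of_ne h3))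

theorem mem_W {v : V} : ∀ {k : ℕ} {w : List (E × Bool)}, w ∈ B.W v k →
    w.length = k ∧ FreeGroup.IsReduced w
  | 0, w, h => by
    rw [W, Finset.mem_singleton] at h
    subst h
    exact ⟨rfl, FreeGroup.IsReduced.nil⟩
  | k + 1, u, h => by
    rw [W, Finset.mem_biUnion] at h
    obtain ⟨w, hw, h⟩ := h
    obtain ⟨d, hd, rfl⟩ := Finset.mem_image.1 h
    have := mem_W hw
    exact ⟨by simp [this.1], B.red_cons hd this.2⟩

variable {B}

theorem Sub.A_pos (h : B.Sub) (v : V) : ∀ w, 0 < B.A v w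
  | [] => h.top v
  | d :: w => by
    have h1 : 0 ≤ B.A v [d] := Finset.sum_nonneg fun d _ ↦ (h.pos d).le
    have h2 := h.le v d
    have h3 := h.pos d
    change 0 < B.A v [d]
    nlinarith

theorem Sub.sum_th (h : B.Sub) (v : V) (w : List (E × Bool)) :
    ∑ d ∈ B.nx v w, B.th v (d :: w) = B.th v w := by
  have := h.A_pos v w
  simp only [th, ← Finset.sum_div, ← Finset.mul_sum]
  rw [← A]
  field_simp

theorem Sub.energy_le (h : B.Sub) (v : V) (k : ℕ) :
    ∑ j ∈ range k, ∑ w ∈ B.W v (j + 1), B.th v w ^ 2 + ∑ w ∈ B.W v k, B.th v w ^ 2 / B.A v w ≤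
      1 / B.A v [] := by
  induction k with
  | zero => simp [W, th]
  | succ k ih =>
    rw [Finset.sum_range_succ, add_assoc, ← Finset.sum_add_distrib, B.sum_W_succ v k]
    refine le_trans (add_le_add_right (Finset.sum_le_sum fun w _ ↦ ?_) _) ih
    have hA := h.A_pos v w
    have : B.th v w ^ 2 / B.A v w = ∑ d ∈ B.nx v w, (B.th v w / B.A v w) ^ 2 * B.c d := by
      rw [← Finset.mul_sum, ← A]
      field_simp
    rw [this]
    refine Finset.sum_le_sum fun d _ ↦ ?_
    have h1 := h.A_pos v [d]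
    have h2 := h.le v d
    have h3 := h.pos d
    have h4 : B.c d * (1 + 1 / B.A v [d]) ≤ 1 := by
      rw [one_add_div h1.ne', ← mul_div_assoc, div_le_one h1]
      exact h2
    have h5 := mul_le_mul_of_nonneg_left h4
      (mul_nonneg (sq_nonneg (B.th v w / B.A v w)) h3.le)
    rw [mul_one] at h5
    refine le_trans (le_of_eq ?_) h5
    change (B.th v w * B.c d / B.A v w) ^ 2 + (B.th v w * B.c d / B.A v w) ^ 2 / B.A v [d] = _
    ring

theorem Sub.energy_le' (h : B.Sub) (v : V) (k : ℕ) :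
    ∑ j ∈ range k, ∑ w ∈ B.W v (j + 1), B.th v w ^ 2 ≤ 1 / B.A v [] := by
  have := Finset.sum_nonneg fun w (_ : w ∈ B.W v k) ↦
    div_nonneg (sq_nonneg (B.th v w)) (h.A_pos v w).le
  linarith [h.energy_le v k]

theorem Sub.telescope (h : B.Sub) (v : V) (F : List (E × Bool) → ℝ) (k : ℕ) :
    F [] - ∑ w ∈ B.W v k, B.th v w * F w =
      ∑ j ∈ range k, ∑ w ∈ B.W v j, ∑ d ∈ B.nx v w, B.th v (d :: w) * (F w - F (d :: w)) := by
  induction k with
  | zero => simp [W, th]
  | succ k ih =>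
    rw [Finset.sum_range_succ, ← ih, B.sum_W_succ v k]
    simp only [mul_sub, Finset.sum_sub_distrib, ← Finset.sum_mul, h.sum_th]
    ring

variable [Fintype X]

theorem Sub.flow (h : B.Sub) {σ : E → Equiv.Perm X} {L : ℕ} (hF : Free σ L) (f : V × X → ℝ)
    (v : V) (x : X) {k : ℕ} (hk : k ≤ L) :
    (f (v, x) - ∑ w ∈ B.W v k, B.th v w * f (B.tv v w, ev σ w x)) ^ 2 ≤
      1 / B.A v [] * ∑ p : E × X, (f (B.a p.1, p.2) - f (B.b p.1, σ p.1 p.2)) ^ 2 := by
  classical
  have h1 := h.telescope v (fun w ↦ f (B.tv v w, ev σ w x)) k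
  change f (v, x) - _ = _ at h1
  rw [h1]
  simp only [Finset.sum_sigma']
  refine (Finset.sum_mul_sq_le_sq_mul_sq _ _ _).trans (mul_le_mul ?_ ?_
    (Finset.sum_nonneg fun _ _ ↦ sq_nonneg _) (div_nonneg zero_le_one (h.top v).le))
  · refine le_trans (le_of_eq ?_) (h.energy_le' v k)
    simp only [Finset.sum_sigma, B.sum_W_succ]
  · set g : E × X → ℝ := fun p ↦ (f (B.a p.1, p.2) - f (B.b p.1, σ p.1 p.2)) ^ 2 with hg
    set ei : (Σ _ : ℕ, Σ _ : List (E × Bool), E × Bool) → E × X := fun p ↦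
      (p.2.2.1, if p.2.2.2 then ev σ p.2.1 x else ev σ (p.2.2 :: p.2.1) x) with hei
    rw [Finset.sum_congr rfl (g := fun p ↦ g (ei p)), ← Finset.sum_image (g := ei) (f := g)]
    · exact Finset.sum_le_sum_of_subset_of_nonneg (Finset.subset_univ _) fun _ _ _ ↦ sq_nonneg _
    · rintro ⟨j, w, e, s⟩ hp ⟨j', w', e', s'⟩ hp' he
      simp only [Finset.coe_sigma, Set.mem_sigma_iff, Finset.mem_coe, Finset.mem_range] at hp hp'
      obtain ⟨a1, a2⟩ := B.mem_W hp.2.1
      obtain ⟨b1, b2⟩ := B.mem_W hp'.2.1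
      have a3 := B.red_cons hp.2.2 a2
      have b3 := B.red_cons hp'.2.2 b2
      simp only [hei, Prod.mk.injEq] at he
      obtain ⟨rfl, he⟩ := he
      have hw : s = s' ∧ w = w' := by
        cases s <;> cases s' <;> simp only [Bool.false_eq_true, if_false, if_true] at he
        · have := hF x _ _ (by simp; omega) (by simp; omega) a3 b3 he
          exact ⟨rfl, (List.cons.inj this).2⟩
        · have := hF x _ _ (by simp; omega) (by omega) a3 b2 he
          subst this
          simpa using (FreeGroup.isReduced_cons_cons.1 b3).1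
        · have := hF x _ _ (by omega) (by simp; omega) a2 b3 he
          subst this
          simpa using (FreeGroup.isReduced_cons_cons.1 a3).1
        · exact ⟨rfl, hF x _ _ (by omega) (by omega) a2 b2 he⟩
      obtain ⟨rfl, rfl⟩ := hw
      rw [← a1, ← b1]
    · rintro ⟨j, w, e, s⟩ hp
      simp only [Finset.mem_sigma] at hp
      have := B.src_eq hp.2.2
      rw [← this]
      cases s
      · simp only [hg, hei, src, tv, tgt, ev, dperm, Bool.false_eq_true, if_false,
          Equiv.Perm.inv_def, Equiv.apply_symm_apply]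
        ring
      · simp only [hg, hei, src, tv, tgt, ev, dperm, if_true]

theorem far [Fintype V] (B : Base V E) {σ : E → Equiv.Perm X} {L : ℕ} (hF : Free σ L)
    (f : V × X → ℝ) (v : V) (x : X) {k : ℕ} (hk : k ≤ L) :
    (∑ w ∈ B.W v k, B.th v w * f (B.tv v w, ev σ w x)) ^ 2 ≤
      (∑ w ∈ B.W v k, B.th v w ^ 2) * ∑ y, f y ^ 2 := by
  classical
  refine (Finset.sum_mul_sq_le_sq_mul_sq _ _ _).trans (mul_le_mul_of_nonneg_left ?_
    (Finset.sum_nonneg fun _ _ ↦ sq_nonneg _))
  rw [← Finset.sum_image (g := fun w ↦ (B.tv v w, ev σ w x)) (f := fun y ↦ f y ^ 2)]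
  · exact Finset.sum_le_sum_of_subset_of_nonneg (Finset.subset_univ _) fun _ _ _ ↦ sq_nonneg _
  · intro w hw w' hw' he
    obtain ⟨a1, a2⟩ := B.mem_W hw
    obtain ⟨b1, b2⟩ := B.mem_W hw'
    exact hF x _ _ (by omega) (by omega) a2 b2 (Prod.mk.inj he).2

theorem Sub.point [Fintype V] (h : B.Sub) {σ : E → Equiv.Perm X} {L : ℕ} (hF : Free σ L)
    (hL : 0 < L) (f : V × X → ℝ) (v : V) (x : X) {ε : ℝ} (hε : 0 < ε) :
    f (v, x) ^ 2 ≤ 1 / B.A v [] *
      ((1 + ε) * ∑ p : E × X, (f (B.a p.1, p.2) - f (B.b p.1, σ p.1 p.2)) ^ 2 +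
        (1 + 1 / ε) / L * ∑ y, f y ^ 2) := by
  have hL' : (0 : ℝ) < L := by exact_mod_cast hL
  obtain ⟨j, hj, h1⟩ := Finset.exists_le_of_sum_le (s := range L) ⟨0, by simpa using hL⟩
    (f := fun j ↦ ∑ w ∈ B.W v (j + 1), B.th v w ^ 2) (g := fun _ ↦ 1 / B.A v [] / L)
    ((h.energy_le' v L).trans (le_of_eq (by simp; field_simp)))
  have hj' : j + 1 ≤ L := Finset.mem_range.1 hj
  have h2 := h.flow hF f v x hj'
  have h3 := (B.far hF f v x hj').trans (mul_le_mul_of_nonneg_right h1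
    (Finset.sum_nonneg fun _ _ ↦ sq_nonneg _))
  set Q := ∑ w ∈ B.W v (j + 1), B.th v w * f (B.tv v w, ev σ w x)
  have h4 : f (v, x) ^ 2 ≤ (1 + ε) * (f (v, x) - Q) ^ 2 + (1 + 1 / ε) * Q ^ 2 := by
    have : (1 + ε) * (f (v, x) - Q) ^ 2 + (1 + 1 / ε) * Q ^ 2 - f (v, x) ^ 2 =
        (ε * (f (v, x) - Q) - Q) ^ 2 / ε := by field_simp; ring
    have h5 : 0 ≤ (ε * (f (v, x) - Q) - Q) ^ 2 / ε := by positivity
    linarith
  have h5 := mul_le_mul_of_nonneg_left h2 (show 0 ≤ 1 + ε by positivity)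
  have h6 := mul_le_mul_of_nonneg_left h3 (show 0 ≤ 1 + 1 / ε by positivity)
  refine h4.trans ((add_le_add h5 h6).trans (le_of_eq ?_))
  ring

end Base

end Pool.Agent.Lib.MP_8d3748_co
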